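import Pool.Agent.Run7.h562.MM.Main2

/-!
Pluricanonical forms of varieties and of the generic fibres.
-/

set_option autoImplicit false
set_option linter.overlappingInstances false
set_option linter.unusedSectionVars false
set_option linter.unusedVariables false
set_option maxHeartbeats 4000000
set_option synthInstance.maxHeartbeats 400000

open FF IntermediateField Module

namespace Pool.Agent.Run7.h562.MM

open Pool.Agent Pool.Agent.W603.LV Pool.Agent.W619.PQ Pool.Agent.N145.PC Pool.Agent.N145.PL
  Pool.Agent.N145.SX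
open Pool.Agent.W602.GT (Divisorial RegAt IsPluri DerReg DerLog LogAt KodGe LogSec Psef)
open Pool.Agent.Y184.NT (trForm trForm_pluri)

open scoped Classical

section

variable {K : Type} [Field K] [Algebra ℂ K] {L : Type} [Field L] [Algebra ℂ L] [Algebra L K]
  [IsScalarTower ℂ L K]

/-- the `w`-canonical forms of the generic fibre of a variety with the function field `M` over the
variety with the function field `E` have ratios which contain `s` functions which are
algebraically independent over `E` -/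
def FibGeW (w : ℕ) (M : IntermediateField L K) (E : IntermediateField ℂ K) (N s : ℕ) : Prop :=
  ∃ ω : Fin (s + 1) → (Fin N → Derivation ℂ M M) → M,
    (∀ j, IsPluri w (ω j) ∧ ∀ P : Place ℂ M, Divisorial N P →
      (∀ f : M, (f : K) ∈ E → P.ord f = 0) → RegAt P (ω j)) ∧
    ∃ D, ω 0 D ≠ 0 ∧ AlgebraicIndependent E (fun i : Fin s => ((ω i.succ D / ω 0 D : M) : K))

/-- forms of weight `w` in coordinates -/
theorem coord_pluri {R : Type} [Field R] [Algebra ℂ R] {N : ℕ} (w : ℕ) (y : Fin N → R) (c : R) :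
    IsPluri w (fun D : Fin N → Derivation ℂ R R =>
      (Matrix.of fun i j => D i (y j) : Matrix (Fin N) (Fin N) R).det ^ w * c) := by
  intro A D
  have h1 : (Matrix.of fun i j => (∑ l, A i l • D l) (y j) : Matrix (Fin N) (Fin N) R) =
      A * Matrix.of fun i j => D i (y j) := by
    ext i j
    rw [Matrix.of_apply, Matrix.mul_apply, Pool.Agent.W73.PG.PULL.sum_app]
    rfl
  change (Matrix.of fun i j => (∑ l, A i l • D l) (y j) : Matrix (Fin N) (Fin N) R).det ^ w * c = _
  rw [h1, Matrix.det_mul, mul_pow, mul_assoc]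

/-- pull-backs to the fibres -/
theorem fib_ofW [FiniteDimensional L K] [Algebra.EssFiniteType ℂ K] {N s w : ℕ}
    (hK : Algebra.trdeg ℂ K = (N : ℕ)) {M : IntermediateField L K} {E : IntermediateField ℂ K}
    {ω : Fin (s + 1) → (Fin N → Derivation ℂ L L) → L}
    (hω : ∀ j, IsPluri w (ω j) ∧ ∀ P : Place ℂ L, Divisorial N P → RegAt P (ω j))
    {D : Fin N → Derivation ℂ L L} (hD : ω 0 D ≠ 0)
    (hind : AlgebraicIndependent E (fun i : Fin s => algebraMap L K (ω i.succ D / ω 0 D))) :
    FibGeW w M E N s := by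
  have hTow : IsScalarTower ℂ M K := IsScalarTower.of_algebraMap_eq fun c => rfl
  have hL : Algebra.trdeg ℂ L = (N : ℕ) := Pool.Agent.Y184.NT.trdeg_below (K := K) hK
  have hM : Algebra.trdeg ℂ M = (N : ℕ) := Pool.Agent.Y184.NT.trdeg_below (K := K) hK
  have hessL : Algebra.EssFiniteType ℂ L := Pool.Agent.TH466.QG.ess_below (K := K)
  obtain ⟨y, G, hy, hG⟩ := Pool.Agent.Y172.exists_crd hL
  choose G' hG' using fun i => Pool.Agent.Y172.exists_lift (L := M) hL (G i)
  have hval : ∀ t : M, (Matrix.of fun i j => G' i (algebraMap L M (y j)) :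
      Matrix (Fin N) (Fin N) M).det ^ w * t = t := by
    intro t
    have h1 : (Matrix.of fun i j => G' i (algebraMap L M (y j)) : Matrix (Fin N) (Fin N) M) = 1 := by
      ext i j
      rw [Matrix.of_apply, hG', hG, Matrix.one_apply]
      split_ifs
      · exact map_one _
      · exact map_zero _
    rw [h1, Matrix.det_one, one_pow, one_mul]
  have hrat : ∀ j, ω j D = (Matrix.of fun i j => D i (y j)).det ^ w * ω j G := fun j =>
    Pool.Agent.Y172.pluri_coord hy hG (hω j).1 D
  have hdet : (Matrix.of fun i j => D i (y j) : Matrix (Fin N) (Fin N) L).det ^ w ≠ 0 := by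
    intro h0
    rw [hrat, h0, zero_mul] at hD
    exact hD rfl
  have hG0 : ω 0 G ≠ 0 := by
    intro h0
    rw [hrat, h0, mul_zero] at hD
    exact hD rfl
  refine ⟨fun j D' => (Matrix.of fun a b => D' a (algebraMap L M (y b)) :
    Matrix (Fin N) (Fin N) M).det ^ w * algebraMap L M (ω j G), fun j =>
    ⟨coord_pluri w _ _, fun P hP _ D' hD' => ?_⟩, G', ?_, ?_⟩
  · exact pull_pluri hL hM hy hG (hω j).1 (hω j).2 P hP hD'
  · change (Matrix.of fun i j => G' i (algebraMap L M (y j)) :
      Matrix (Fin N) (Fin N) M).det ^ w * algebraMap L M (ω 0 G) ≠ 0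
    rw [hval]
    simpa using hG0
  · simp only [hval]
    have h1 : (fun i : Fin s => ((algebraMap L M (ω i.succ G) / algebraMap L M (ω 0 G) : M) : K)) =
        fun i => algebraMap L K (ω i.succ D / ω 0 D) := by
      funext i
      rw [hrat, hrat, mul_div_mul_left _ _ hdet, ← map_div₀]
      rfl
    rw [h1]
    exact hind

/-- **The Kodaira dimension of the generic fibre.** -/
theorem kod_fibre [FiniteDimensional L K] [Algebra.EssFiniteType ℂ K] {N n s : ℕ}
    (hK : Algebra.trdeg ℂ K = (N + n : ℕ)) {M : IntermediateField L K} {E : IntermediateField ℂ K}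
    (hE : Algebra.trdeg ℂ E = N) (h : KodGe ℂ L (N + n) (fun _ => False) (N + s)) :
    ∃ w, 0 < w ∧ FibGeW w M E (N + n) s := by
  obtain ⟨w, hw, ω, hω, D, hD0, hDi⟩ := h
  refine ⟨w, hw, ?_⟩
  have hω' : ∀ j, IsPluri w (ω j) ∧ ∀ P : Place ℂ L, Divisorial (N + n) P → RegAt P (ω j) :=
    fun j => ⟨(hω j).1, fun P hP => (hω j).2.2 P hP not_false⟩
  have hri : AlgebraicIndependent ℂ (fun i : Fin (N + s) =>
      algebraMap L K (ω i.succ D / ω 0 D)) := hDi.map' (f := IsScalarTower.toAlgHom ℂ L K)
    (IsScalarTower.toAlgHom ℂ L K).injective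
  obtain ⟨ι, hι⟩ := choose_indep hE hri
  exact fib_ofW (s := s) hK (ω := Fin.cons (ω 0) fun i => ω (ι i).succ) (fun j => by
    refine Fin.cases ?_ (fun i => ?_) j
    · rw [Fin.cons_zero]
      exact hω' 0
    · rw [Fin.cons_succ]
      exact hω' _) (D := D) (by rw [Fin.cons_zero]; exact hD0) (by
    simp only [Fin.cons_zero, Fin.cons_succ]
    exact hι)

/-- the case `s = 0` -/
theorem kod_fibre0 [FiniteDimensional L K] [Algebra.EssFiniteType ℂ K] {N : ℕ}
    (hK : Algebra.trdeg ℂ K = (N : ℕ)) {M : IntermediateField L K} {E : IntermediateField ℂ K}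
    (h : KodGe ℂ L N (fun _ => False) 0) : ∃ w, 0 < w ∧ FibGeW w M E N 0 := by
  obtain ⟨w, hw, ω, hω, D, hD0, -⟩ := h
  exact ⟨w, hw, fib_ofW hK (fun j => ⟨(hω j).1, fun P hP => (hω j).2.2 P hP not_false⟩) hD0
    ((algebraicIndependent_empty_type_iff (x := fun i : Fin 0 =>
    algebraMap L K (ω i.succ D / ω 0 D))).2 (algebraMap E K).injective)⟩

end

section

variable {K : Type} [Field K] [Algebra ℂ K] {k : ℕ} {F : Fin (k + 1) → IntermediateField ℂ K}
  {m : Fin k → ℕ} {n : ℕ}

/-- the transcendence degree of the function field of the base -/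
theorem trdeg_base (hsup : ⨆ i, F i = ⊤) {N : ℕ} (hK : Algebra.trdeg ℂ K = (N + n : ℕ))
    {x : ∀ i : Fin k, Fin (m i) → F i.castSucc} (hx : ∀ i, IsTranscendenceBasis ℂ (x i))
    {y : Fin n → F (Fin.last k)} (hy : IsTranscendenceBasis ℂ y)
    (e : Fin N ≃ (i : Fin k) × Fin (m i)) :
    Algebra.trdeg ℂ ↥(⨆ i : Fin k, F i.castSucc) = N := by
  have hz := basis_all hsup hK hx hy e
  have hind : AlgebraicIndependent ℂ fun p : (i : Fin k) × Fin (m i) => (x p.1 p.2 : K) := by
    have h7 := hz.1.comp (fun p : (i : Fin k) × Fin (m i) => Fin.castAdd n (e.symm p))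
      ((Fin.castAdd_injective _ _).comp e.symm.injective)
    have h8 : (Fin.append (fun l : Fin N => (x (e l).1 (e l).2 : K)) (fun j => (y j : K)) ∘
        fun p : (i : Fin k) × Fin (m i) => Fin.castAdd n (e.symm p)) =
        fun p => (x p.1 p.2 : K) := by
      funext p
      rw [Function.comp_apply, Fin.append_left, Equiv.apply_symm_apply]
    rwa [h8] at h7
  exact trdeg_basis (basis_zS x (fun i => le_iSup (fun i : Fin k => F i.castSucc) i) e hx hind rfl)

end

end Pool.Agent.Run7.h562.MM
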