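import Pool.Agent.N145.SX.MFin
import Pool.Agent.N145.SX.PullK

/-!
Varieties dominated by the product of several varieties and one more variety of arbitrary
dimension: the relation between the points of two fibres of the canonical map.
After `Pool.Agent.N145.SX.Multi` (where the last factor is a curve).
-/

set_option autoImplicit false
set_option linter.overlappingInstances false
set_option linter.unusedSectionVars false
set_option linter.unusedVariables false
set_option maxHeartbeats 4000000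
set_option synthInstance.maxHeartbeats 400000

open Polynomial FF IntermediateField Module

namespace Pool.Agent.Run7.h562.MM

open Pool.Agent Pool.Agent.W603.LV Pool.Agent.W619.PQ Pool.Agent.N145.PC Pool.Agent.N145.PL
  Pool.Agent.N145.SX
open Pool.Agent.W602.GT (Divisorial RegAt IsPluri DerReg DerLog LogAt KodGe LogSec Psef)
open Pool.Agent.Y184.NT (trForm trForm_pluri)
open Pool.Agent.R882.LT (SecAt LogGenusZero)

open scoped Classical

/-- **Pull-backs of canonical forms which are regular at one place.** After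
`Pool.Agent.N145.SX.pull_pluri`. -/
theorem pull_local {K R : Type} [Field K] [Field R] [Algebra ℂ K] [Algebra ℂ R] [Algebra K R]
    [IsScalarTower ℂ K R] [Algebra.EssFiniteType ℂ K] {n N : ℕ} (hn : Algebra.trdeg ℂ K = n)
    (hN : Algebra.trdeg ℂ R = N) {z : Fin n → K} (hz : IsTranscendenceBasis ℂ z)
    {E : Fin n → Derivation ℂ K K} (hE : ∀ i j, E i (z j) = if i = j then 1 else 0)
    {ω : (Fin n → Derivation ℂ K K) → K} (hω : IsPluri 1 ω)
    (Q : Place ℂ R) (hQ : Divisorial N Q)
    (hreg : ∀ (P : Place ℂ K) (e : ℕ), Over Q P e → RegAt P ω)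
    {D : Fin n → Derivation ℂ R R} (hD : ∀ i, DerReg Q (D i)) :
    Q.Reg ((Matrix.of fun i j => D i (algebraMap K R (z j)) : Matrix (Fin n) (Fin n) R).det *
      algebraMap K R (ω E)) := by
  classical
  by_cases htriv : ∃ f : K, Q.ord (algebraMap K R f) ≠ 0
  · obtain ⟨e, P, hP⟩ := exists_over Q htriv
    have hPd : Divisorial n P := Pool.Agent.Y71.NT.t_abh K R n N hn hN Q P e hP hQ
    obtain ⟨yP, EP, i0, hbas, hdual, -, hyreg, hpres⟩ :=
      Pool.Agent.W240.PG.Frame.main.{0, 0} Pool.Agent.W762.PG.main ℂ K n hn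
        (fun y hy => Pool.Agent.Y297.NT.fd_basis hy) P hPd
    have h1 := Pool.Agent.W73.PG.PULL.form_eq (L := R) z yP hz hbas E EP hE hdual
      (m := 1) ω hω D
    rw [pow_one, pow_one] at h1
    rw [h1]
    refine Q.reg_mul ?_ ?_
    · have h9 : Ge Q 0 (Matrix.of fun a c => D a (algebraMap K R (yP c)) :
          Matrix (Fin n) (Fin n) R).det :=
        Pool.Agent.W619.PQ.ge_det Q _ fun a b => hD a _ (hP.reg.2 (hyreg b))
      exact h9
    · exact hP.reg.2 (hreg P e hP EP hpres)
  · push Not at htriv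
    have h0 : ∀ f : K, Q.Reg (algebraMap K R f) := fun f => Or.inr (htriv f).ge
    refine Q.reg_mul ?_ (h0 _)
    have h9 : Ge Q 0 (Matrix.of fun i j => D i (algebraMap K R (z j)) :
        Matrix (Fin n) (Fin n) R).det :=
      Pool.Agent.W619.PQ.ge_det Q _ fun a b => hD a _ (h0 _)
    exact h9

section

variable {K L : Type} [Field K] [Field L] [Algebra ℂ K] [Algebra ℂ L] [Algebra L K]
  [IsScalarTower ℂ L K] [FiniteDimensional L K]

/-- **Traces and pull-backs of canonical forms in coordinates.** -/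
theorem exists_tr [Algebra.EssFiniteType ℂ K] {N : ℕ} (hK : Algebra.trdeg ℂ K = (N : ℕ))
    {z : Fin N → K} (hz : IsTranscendenceBasis ℂ z) :
    ∃ (y : Fin N → L) (G : Fin N → Derivation ℂ L L) (h : K) (G' : Fin N → Derivation ℂ K K),
      IsTranscendenceBasis ℂ y ∧ (∀ i j, G i (y j) = if i = j then 1 else 0) ∧
      (∀ i f, G' i (algebraMap L K f) = algebraMap L K (G i f)) ∧
      (∀ g, trForm z g G' = h * g) ∧ h ≠ 0 ∧
      (∀ g : K, (∀ Q : Place ℂ K, Divisorial N Q → RegAt Q (trForm z g)) →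
        ∀ P : Place ℂ L, Divisorial N P → RegAt P (trForm y (Algebra.trace L K (h * g)))) ∧
      (∀ (t : L) (Q : Place ℂ K), Divisorial N Q → (∀ (P : Place ℂ L) (e : ℕ), Over Q P e →
        RegAt P (trForm y t)) → RegAt Q (trForm z (algebraMap L K t / h))) ∧
      ∀ (M : IntermediateField L K) (D : Fin N → Derivation ℂ M M)
        (D' : Fin N → Derivation ℂ K K),
        (∀ i v, D' i (algebraMap M K v) = algebraMap M K (D i v)) →
        ∃ a : M, ∀ g, trForm z g D' = algebraMap M K a * (h * g) := by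
  classical
  have hL : Algebra.trdeg ℂ L = (N : ℕ) := Pool.Agent.Y184.NT.trdeg_below (K := K) hK
  have hessL : Algebra.EssFiniteType ℂ L := Pool.Agent.TH466.QG.ess_below (K := K)
  obtain ⟨y, G, hy, hG⟩ := Pool.Agent.Y172.exists_crd hL
  choose G' hG' using fun i => Pool.Agent.Y172.exists_lift (L := K) hL (G i)
  have hyK : IsTranscendenceBasis ℂ (fun j => algebraMap L K (y j)) := hy.algebraMap_comp
  have hGK := Pool.Agent.Y172.lift_dual hG hG'
  obtain ⟨h, hdef⟩ : ∃ h, h = (Matrix.of fun i j => G' i (z j) :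
    Matrix (Fin N) (Fin N) K).det := ⟨_, rfl⟩
  have hval : ∀ g : K, trForm z g G' = h * g := by
    intro g
    rw [trForm, hdef]
  have hh : h ≠ 0 := by
    intro h0
    choose Z hZ using fun i : Fin N => Pool.Agent.W602.GT.exists_der _ hz
      fun j => if i = j then (1 : K) else 0
    have h1 := Pool.Agent.Y172.pluri_coord hyK hGK (trForm_pluri z (1 : K)) Z
    rw [hval, h0, zero_mul, mul_zero] at h1
    have h2 : (Matrix.of fun i j => Z i (z j) : Matrix (Fin N) (Fin N) K) = 1 := by
      ext i j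
      rw [Matrix.of_apply, hZ, Matrix.one_apply]
    rw [trForm, h2, Matrix.det_one, one_mul] at h1
    exact one_ne_zero h1
  refine ⟨y, G, h, G', hy, hG, hG', hval, hh, ?_, ?_, ?_⟩
  · intro g hg P hP
    rw [← hval]
    exact Pool.Agent.R882.LT.trForm_regAt hL hy hG hG' _ (trForm_pluri _ _) P hP
      fun Q e hQ => hg Q (Pool.Agent.Y172.divisorial_up hQ hP)
  · intro t Q hQ ht D hD
    have h1 := Pool.Agent.Y172.pluri_coord hyK hGK (trForm_pluri z (algebraMap L K t / h)) D
    rw [h1, hval, pow_one, mul_div_cancel₀ _ hh]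
    have hθE : trForm y t G = t := by
      have h1 : (Matrix.of fun i j => G i (y j) : Matrix (Fin N) (Fin N) L) = 1 := by
        ext i j
        rw [Matrix.of_apply, hG, Matrix.one_apply]
      rw [trForm, h1, Matrix.det_one, one_mul]
    have h2 := pull_local hL hK hy hG (trForm_pluri y t) Q hQ ht hD
    rw [hθE] at h2
    exact h2
  · intro M D D' hD
    refine ⟨(Matrix.of fun i j => D i (algebraMap L M (y j)) :
      Matrix (Fin N) (Fin N) M).det, fun g => ?_⟩
    rw [Pool.Agent.Y172.pluri_coord hyK hGK (trForm_pluri z g) D', hval, pow_one]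
    rw [RingHom.map_det]
    congr 2
    ext i j
    rw [RingHom.mapMatrix_apply, Matrix.map_apply, Matrix.of_apply, Matrix.of_apply]
    rw [← hD]
    rfl

end

section

variable {K : Type} [Field K] [Algebra ℂ K] {k : ℕ} {F : Fin (k + 1) → IntermediateField ℂ K}
  {m : Fin k → ℕ} {n : ℕ}

/-- the coordinates on all factors -/
theorem basis_all (hsup : ⨆ i, F i = ⊤) {N : ℕ} (hK : Algebra.trdeg ℂ K = (N + n : ℕ))
    {x : ∀ i : Fin k, Fin (m i) → F i.castSucc} (hx : ∀ i, IsTranscendenceBasis ℂ (x i))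
    {y : Fin n → F (Fin.last k)} (hy : IsTranscendenceBasis ℂ y)
    (e : Fin N ≃ (i : Fin k) × Fin (m i)) :
    IsTranscendenceBasis ℂ (Fin.append (fun l : Fin N => (x (e l).1 (e l).2 : K))
      (fun j => (y j : K))) := by
  obtain ⟨w, hw⟩ : ∃ w : Fin (N + n) → K, w = Fin.append (fun l : Fin N =>
    (x (e l).1 (e l).2 : K)) (fun j => (y j : K)) := ⟨_, rfl⟩
  rw [← hw]
  have hwl : ∀ l : Fin N, w (Fin.castAdd n l) = x (e l).1 (e l).2 := fun l => by
    rw [hw, Fin.append_left]
  have hwr : ∀ j : Fin n, w (Fin.natAdd N j) = y j := fun j => by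
    rw [hw, Fin.append_right]
  obtain ⟨S, hS⟩ : ∃ S, S = IntermediateField.adjoin ℂ (Set.range w) := ⟨_, rfl⟩
  have hwS : ∀ l, w l ∈ S := fun l => by
    rw [hS]
    exact IntermediateField.subset_adjoin _ _ ⟨l, rfl⟩
  have h3 : ∀ i, ∀ v ∈ F i, IsAlgebraic S v := by
    intro i
    induction i using Fin.lastCases with
    | last =>
      intro v hv
      refine alg_of_basis hy (fun j => ?_) hv
      rw [← hwr]
      exact hwS _
    | cast i =>
      intro v hv
      refine alg_of_basis (hx i) (fun j => ?_) hv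
      have h1 := hwS (Fin.castAdd n (e.symm ⟨i, j⟩))
      rw [hwl, Equiv.apply_symm_apply] at h1
      exact h1
  have h4 := le_algCl h3 (T := ⊤) hsup.symm
  have h5 : Algebra.IsAlgebraic (Algebra.adjoin ℂ (Set.range w)) K := by
    refine Pool.Agent.W619.PQ.alg_adjoin fun z => ?_
    have h6 := h4 (IntermediateField.mem_top (x := z))
    rw [mem_restrictScalars, mem_algebraicClosure_iff, hS] at h6
    exact h6
  refine Algebra.IsAlgebraic.isTranscendenceBasis_of_lift_le_trdeg_of_finite ℂ _ ?_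
  rw [hK]
  simp

end

section

variable {K : Type} [Field K] [Algebra ℂ K] {n : ℕ} {F : Fin n → IntermediateField ℂ K}
  {L Ω Ω' : Type} [Field L] [Field Ω] [Algebra ℂ L] [Algebra ℂ Ω]
  [Algebra L K] [IsScalarTower ℂ L K] [Algebra L Ω] [IsScalarTower ℂ L Ω]
  [FiniteDimensional L K] [IsAlgClosed Ω] [Field Ω'] [Algebra ℂ Ω'] (ι θ : Ω →ₐ[ℂ] Ω')

/-- all coordinates except one fixed: the traces vanish, or there is a point of the second fibre
with the same coordinates and proportional traces -/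
theorem rel2_trace {H : ∀ i, Set (F i)} {h : K} {lam : Ω'} (hlam : lam ≠ 0) {τ0 : K →ₐ[L] Ω}
    {i0 : Fin n}
    (h1 : Rl (P2 ι θ F L) (ev Ω' F) H (C2 ι θ h lam) (Sum.inl τ0) (Finset.univ.erase i0)) :
    (∀ f ∈ H i0, Algebra.trace (MF F L (Finset.univ.erase i0)) K (h * (f : K)) = 0) ∨
    ∃ τ1 : K →ₐ[L] Ω, (∀ i, i ≠ i0 → ∀ z : F i, θ (τ1 z) = ι (τ0 z)) ∧
      ∀ f ∈ H i0, θ (τ1 ((Algebra.trace (MF F L (Finset.univ.erase i0)) K (h * (f : K)) :
        MF F L (Finset.univ.erase i0)) : K)) =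
        lam * ι (τ0 ((Algebra.trace (MF F L (Finset.univ.erase i0)) K (h * (f : K)) :
        MF F L (Finset.univ.erase i0)) : K)) := by
  obtain ⟨S1, h2, h3, h4⟩ := Ch.exists_parts ι θ (F := F) τ0 (Finset.univ.erase i0)
  have h8 : (Finset.univ.erase i0 : Finset (Fin n))ᶜ = {i0} := by
    ext i
    simp
  have key : ∀ f ∈ H i0, -(lam * ι (τ0 ((Algebra.trace (MF F L (Finset.univ.erase i0)) K
      (h * (f : K)) : MF F L (Finset.univ.erase i0)) : K))) + ∑ τ ∈ S1, θ (τ (h * (f : K))) =
        0 := by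
    intro f hf
    have h6 := h1 (Function.update (fun i => (0 : F i)) i0 f) (by
      intro i hi
      have : i = i0 := by
        by_contra hne
        exact hi (Finset.mem_erase.2 ⟨hne, Finset.mem_univ _⟩)
      subst this
      rw [Function.update_self]
      exact hf)
    rw [h4, h8, Finset.sum_disjSum] at h6
    have h9 := sum_trace (MF F L (Finset.univ.erase i0)) τ0 _
      (mem_iff τ0 (Finset.univ.erase i0)) (h * (f : K))
    have h11 : ∀ τ : K →ₐ[L] Ω, C2 ι θ h lam (Sum.inl τ) * ∏ i ∈ ({i0} : Finset (Fin n)),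
        ev Ω' F i (Function.update (fun i => (0 : F i)) i0 f i) (P2 ι θ F L i (Sum.inl τ)) =
        (-lam) * ι (τ (h * (f : K))) := by
      intro τ
      rw [Finset.prod_singleton, Function.update_self, map_mul, map_mul, ← mul_assoc, neg_mul]
      rfl
    have h12 : ∀ τ : K →ₐ[L] Ω, C2 ι θ h lam (Sum.inr τ) * ∏ i ∈ ({i0} : Finset (Fin n)),
        ev Ω' F i (Function.update (fun i => (0 : F i)) i0 f i) (P2 ι θ F L i (Sum.inr τ)) =
        θ (τ (h * (f : K))) := by
      intro τ
      rw [Finset.prod_singleton, Function.update_self, map_mul, map_mul]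
      rfl
    rw [Finset.sum_congr rfl fun τ _ => h11 τ, Finset.sum_congr rfl fun τ _ => h12 τ,
      ← Finset.mul_sum, ← map_sum, h9] at h6
    rw [← h6]
    ring_nf
    rfl
  rcases h2 with rfl | ⟨τ1, rfl⟩
  · left
    intro f hf
    have h5 := key f hf
    rw [Finset.sum_empty, add_zero, neg_eq_zero] at h5
    have h6 := (mul_eq_zero.1 h5).resolve_left hlam
    rw [map_eq_zero_iff ι ι.injective, map_eq_zero] at h6
    exact Subtype.ext h6
  · right
    refine ⟨τ1, ?_, ?_⟩
    · have h6 := (h3 τ1).2 (self_SJ _)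
      rw [mem_SJ] at h6
      exact fun i hi z => DFunLike.congr_fun (h6 i (Finset.mem_erase.2 ⟨hi, Finset.mem_univ i⟩)) z
    · intro f hf
      have h5 := key f hf
      have h9 := sum_trace (MF F L (Finset.univ.erase i0)) τ1 _
        (mem_iff τ1 (Finset.univ.erase i0)) (h * (f : K))
      rw [← map_sum, h9] at h5
      rw [neg_add_eq_zero] at h5
      exact h5.symm

end

section

variable {K : Type} [Field K] [Algebra ℂ K] {k : ℕ} {F : Fin (k + 1) → IntermediateField ℂ K}
  {m : Fin k → ℕ} {n : ℕ}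

variable {L : Type} [Field L] [Algebra ℂ L]
  [Algebra L K] [IsScalarTower ℂ L K] [FiniteDimensional L K]

/-- **Several factors and one more factor of arbitrary dimension.** -/
theorem core [Algebra.EssFiniteType ℂ K]
    [∀ i, Algebra.EssFiniteType ℂ (F i)] (hsup : ⨆ i, F i = ⊤)
    (hm : ∀ i : Fin k, Algebra.trdeg ℂ (F i.castSucc) = m i)
    (hn : Algebra.trdeg ℂ (F (Fin.last k)) = n) {N : ℕ} (e : Fin N ≃ (i : Fin k) × Fin (m i))
    (hK : Algebra.trdeg ℂ K = (N + n : ℕ)) {x : ∀ i : Fin k, Fin (m i) → F i.castSucc}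
    (hx : ∀ i, IsTranscendenceBasis ℂ (x i)) {y : Fin n → F (Fin.last k)}
    (hy : IsTranscendenceBasis ℂ y)
    {g : Fin k → ℕ} (hsep : ∀ i, SepX (x i) (fun _ => False) (g i))
    (hd : ∀ i : Fin k, 2 * finrank (MF F L (Js (k + 1) i)) (IntermediateField.adjoin
      (MF F L (Js (k + 1) i)) (F i.castSucc : Set K)) < g i) {yL : Fin (N + n) → L} {h : K}
    (hreg : ∀ g : K, (∀ Q : Place ℂ K, Divisorial (N + n) Q → RegAt Q
        (trForm (Fin.append (fun l : Fin N => (x (e l).1 (e l).2 : K)) (fun j => (y j : K))) g)) →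
      ∀ P : Place ℂ L, Divisorial (N + n) P →
        RegAt P (trForm yL (Algebra.trace L K (h * g)))) :
    (∀ a ∈ HX y (fun _ => False),
      Algebra.trace (MF F L (Finset.univ.erase (Fin.last k))) K (h * (a : K)) = 0) ∨
    ∃ (ι : Type) (T : ι → L), (∃ f, T f ≠ 0) ∧
      (∀ f, ∀ P : Place ℂ L, Divisorial (N + n) P → RegAt P (trForm yL (T f))) ∧
      (∀ (i : Fin k) (v : F i.castSucc), IsAlgebraic (Rt T) (v : K)) ∧
      ∀ a ∈ HX y (fun _ => False), ∀ a' ∈ HX y (fun _ => False),
        Algebra.trace (MF F L (Finset.univ.erase (Fin.last k))) K (h * (a' : K)) ≠ 0 →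
        IsAlgebraic (Rt T) (((Algebra.trace (MF F L (Finset.univ.erase (Fin.last k))) K
          (h * (a : K)) : MF F L (Finset.univ.erase (Fin.last k))) : K) /
          ((Algebra.trace (MF F L (Finset.univ.erase (Fin.last k))) K (h * (a' : K)) :
            MF F L (Finset.univ.erase (Fin.last k))) : K)) := by
  have hL : Algebra.trdeg ℂ L = (N + n : ℕ) := Pool.Agent.Y184.NT.trdeg_below (K := K) hK
  have hessL : Algebra.EssFiniteType ℂ L := Pool.Agent.TH466.QG.ess_below (K := K)
  have hz := basis_all hsup hK hx hy e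
  have hind : AlgebraicIndependent ℂ fun p : (i : Fin k) × Fin (m i) => (x p.1 p.2 : K) := by
    have h7 := hz.1.comp (fun p : (i : Fin k) × Fin (m i) => Fin.castAdd n (e.symm p))
      ((Fin.castAdd_injective _ _).comp e.symm.injective)
    have h8 : (Fin.append (fun l : Fin N => (x (e l).1 (e l).2 : K)) (fun j => (y j : K)) ∘
        fun p : (i : Fin k) × Fin (m i) => Fin.castAdd n (e.symm p)) =
        fun p => (x p.1 p.2 : K) := by
      funext p
      rw [Function.comp_apply, Fin.append_left, Equiv.apply_symm_apply]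
    rwa [h8] at h7
  obtain ⟨E, hE⟩ : ∃ E, E = ⨆ i : Fin k, F i.castSucc := ⟨_, rfl⟩
  have hle : ∀ i : Fin k, F i.castSucc ≤ E := fun i => by
    rw [hE]
    exact le_iSup (fun i : Fin k => F i.castSucc) i
  have hessE : Algebra.EssFiniteType ℂ E := ess_iSup (F := fun i : Fin k => F i.castSucc) hE
  have hzE := basis_zS x hle e hx hind hE
  have htrE := trdeg_basis hzE
  obtain ⟨τ0⟩ : Nonempty (K →ₐ[L] AlgebraicClosure L) :=
    ⟨IsAlgClosed.lift (R := L) (M := AlgebraicClosure L) (S := K)⟩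
  have hT' : IsScalarTower ℂ L (AlgebraicClosure L) := inferInstance
  obtain ⟨H, hH⟩ : ∃ H, H = HS x (fun _ _ => False) (HX y (fun _ => False) :
    Set (F (Fin.last k))) := ⟨_, rfl⟩
  have hHl : H (Fin.last k) = HX y (fun _ => False) := by
    rw [hH]
    exact HS_last x _ _
  have hHc : ∀ i : Fin k, H i.castSucc = HX (x i) (fun _ => False) := fun i => by
    rw [hH]
    exact HS_cast x _ _ i
  let I := {f : ∀ i, F i // ∀ i, f i ∈ H i}
  obtain ⟨T, hT⟩ : ∃ T : I → L, ∀ f, T f =
    Algebra.trace L K (h * ∏ i, algebraMap (F i) K (f.1 i)) := ⟨_, fun _ => rfl⟩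
  have hTreg : ∀ f, ∀ P : Place ℂ L, Divisorial (N + n) P → RegAt P (trForm yL (T f)) := by
    intro f P hP
    obtain ⟨q, hq1, hq2⟩ := prods sec2 k (fun i => F i.castSucc) m hm x hx hind
      (fun _ _ => False) E hE hle N e (fun i => f.1 i.castSucc) (fun i => by
        have := f.2 i.castSucc
        rwa [hHc] at this)
    have hq3 : q ∈ HX (zS x hle e) (fun _ => False) := by
      refine hx_mono ?_ hq2
      rintro Q ⟨_, _, _, h3, -⟩
      exact h3
    have h1 := sec2 K E (F (Fin.last k)) N n htrE hn hK (zS x hle e) hzE y hy (fun _ => False)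
      (fun _ => False) q hq3 (f.1 (Fin.last k)) (by
        have := f.2 (Fin.last k)
        rwa [hHl] at this)
    have h2 : algebraMap E K q * algebraMap (F (Fin.last k)) K (f.1 (Fin.last k)) =
        ∏ i, algebraMap (F i) K (f.1 i) := by
      rw [Fin.prod_univ_castSucc]
      congr 1
    rw [h2] at h1
    rw [hT]
    refine hreg _ (fun Q hQ => ?_) P hP
    refine (h1 Q hQ).2 ?_
    rintro (⟨_, _, h3, -⟩ | ⟨_, _, h3, -⟩)
    · exact h3
    · exact h3
  obtain ⟨gg, hgg⟩ : ∃ gg : Fin (k + 1) → ℕ, gg = Fin.lastCases (motive := fun _ => ℕ) 0 g :=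
    ⟨_, rfl⟩
  have hggl : gg (Fin.last k) = 0 := by
    rw [hgg]
    exact Fin.lastCases_last
  have hggc : ∀ i : Fin k, gg i.castSucc = g i := fun i => by
    rw [hgg]
    exact Fin.lastCases_castSucc i
  have hS : ∀ (Ω : Type) [Field Ω] [Algebra ℂ Ω] [IsAlgClosed Ω] (i : Fin (k + 1)),
      Sep (ev Ω F i) (H i) (gg i) := by
    intro Ω _ _ _ i
    induction i using Fin.lastCases with
    | last =>
      intro A hA
      rw [hggl] at hA
      exact absurd hA (Nat.not_lt_zero _)
    | cast i =>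
      intro A hA c hc
      rw [hggc] at hA
      rw [hHc] at hc
      exact hsep i Ω A hA c hc
  by_cases hT0 : ∃ f, T f ≠ 0
  swap
  · left
    push Not at hT0
    have h0 := Ch.rel_zero (F := F) (H := H) (h := h) (fun f hf => by
      have := hT0 ⟨f, hf⟩
      rwa [hT] at this) τ0
    have h1 := Rl.chain h0 (hS (AlgebraicClosure L)) (s := k) (fun l hl => by
      obtain ⟨i, rfl⟩ : ∃ i : Fin k, i.castSucc = l := ⟨⟨l.val, hl⟩, rfl⟩
      rw [hggc]
      exact lt_of_le_of_lt ((Ch.count_le τ0 _ _).trans (Nat.le_mul_of_pos_left _ two_pos))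
        (hd i))
    rw [erase_last] at h1
    intro a ha
    have h2 := Ch.rel_erase h1 (Fin.lastCases (motive := fun i => F i) a (fun _ => 1)) (by
      rw [Fin.lastCases_last, hHl]
      exact ha)
    rw [Fin.prod_univ_castSucc, Fin.lastCases_last] at h2
    simp only [Fin.lastCases_castSucc, map_one, Finset.prod_const_one, one_mul] at h2
    exact h2
  · obtain ⟨f1, hf1⟩ := hT0
    obtain ⟨Ω', iF, iA, iC, i1, i2, lam, hlam, hlamT, hpts⟩ := exists_pts T (f1 := f1) hf1
    have h0 : Rl (P2 i1 i2 F L) (ev Ω' F) H (C2 i1 i2 h lam) (Sum.inl τ0) ∅ :=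
      Ch.rel2_zero i1 i2 (fun f hf => by
        have := hlamT ⟨f, hf⟩
        rw [hT] at this
        exact this) _
    have h1 := Rl.chain h0 (hS Ω') (s := k) (fun l hl => by
      obtain ⟨i, rfl⟩ : ∃ i : Fin k, i.castSucc = l := ⟨⟨l.val, hl⟩, rfl⟩
      rw [hggc]
      exact lt_of_le_of_lt (Ch.count2_le i1 i2 τ0 _ _) (hd i))
    rw [erase_last] at h1
    rcases rel2_trace i1 i2 hlam h1 with h3 | ⟨τ1, hτ1, hτ2⟩
    · left
      rwa [hHl] at h3
    · right
      rw [hHl] at hτ2
      refine ⟨I, T, ⟨f1, hf1⟩, hTreg, fun i v => ?_, fun a ha a' ha' hne => ?_⟩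
      · exact alg_back τ0 (hpts _ _ (hτ1 i.castSucc (Fin.castSucc_ne_last _) v).symm)
      · refine alg_back τ0 (hpts _ (τ1 (((Algebra.trace (MF F L (Finset.univ.erase
          (Fin.last k))) K (h * (a : K)) : MF F L (Finset.univ.erase (Fin.last k))) : K) /
          ((Algebra.trace (MF F L (Finset.univ.erase (Fin.last k))) K (h * (a' : K)) :
            MF F L (Finset.univ.erase (Fin.last k))) : K))) ?_)
        have hne' : ((Algebra.trace (MF F L (Finset.univ.erase (Fin.last k))) K (h * (a' : K)) :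
            MF F L (Finset.univ.erase (Fin.last k))) : K) ≠ 0 := fun h5 => hne (Subtype.ext h5)
        rw [map_div₀, map_div₀, map_div₀, map_div₀, hτ2 a ha, hτ2 a' ha',
          mul_div_mul_left _ _ hlam]

end

end Pool.Agent.Run7.h562.MM
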