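import Pool.Agent.TH122.AB.Plc
import Pool.Agent.W602.GT.Defs

/-!
The Gauss extension of a place to a rational function field in several variables.
-/

set_option autoImplicit false
set_option linter.overlappingInstances false
set_option linter.unusedSectionVars false
set_option linter.unusedVariables false
set_option maxHeartbeats 4000000
set_option synthInstance.maxHeartbeats 400000

open FF MvPolynomial

namespace Pool.Agent.Run7.h562.MM

open Pool.Agent Pool.Agent.W603.LV
open Pool.Agent.TH122.AB (Gens)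

open scoped Classical

section

variable {k F : Type} [Field k] [Field F] [Algebra k F] {σ : Type} (P : Place k F)

/-- the minimum of the orders of the coefficients -/
noncomputable def nu (b : MvPolynomial σ F) : ℤ :=
  if h : b = 0 then 0 else b.support.inf' (by
    rw [Finset.nonempty_iff_ne_empty]
    simpa using h) fun s => P.ord (b.coeff s)

theorem le_nu_iff {b : MvPolynomial σ F} (hb : b ≠ 0) {c : ℤ} :
    c ≤ nu P b ↔ ∀ s, Ge P c (b.coeff s) := by
  rw [nu, dif_neg hb, Finset.le_inf'_iff]
  constructor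
  · intro h s
    by_cases hs : b.coeff s = 0
    · exact Or.inl hs
    · exact Or.inr (h s (mem_support_iff.2 hs))
  · intro h s hs
    exact (h s).resolve_left (mem_support_iff.1 hs)

theorem ge_sum' {ι : Type*} (s : Finset ι) {c : ℤ} {f : ι → F} (h : ∀ i ∈ s, Ge P c (f i)) :
    Ge P c (∑ i ∈ s, f i) := by
  induction s using Finset.induction_on with
  | empty => exact Or.inl (by simp)
  | insert a s ha ih =>
    rw [Finset.sum_insert ha]
    exact (h a (Finset.mem_insert_self _ _)).add (ih fun i hi => h i (Finset.mem_insert_of_mem hi))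

/-- products -/
theorem ge_coeff_mul {a b : MvPolynomial σ F} {c d : ℤ} (ha : ∀ s, Ge P c (a.coeff s))
    (hb : ∀ s, Ge P d (b.coeff s)) (s : σ →₀ ℕ) : Ge P (c + d) ((a * b).coeff s) := by
  rw [coeff_mul]
  exact ge_sum' P _ fun p _ => (ha _).mul (hb _)

theorem ge_iff_ord {c : ℤ} {z : F} (hz : z ≠ 0) : Ge P c z ↔ c ≤ P.ord z :=
  ⟨fun h => h.resolve_left hz, Or.inr⟩

/-- Gauss's lemma -/
theorem gauss_lemma {a b : MvPolynomial σ F} (ha : ∀ s, Ge P 0 (a.coeff s))
    (hb : ∀ s, Ge P 0 (b.coeff s)) (hab : ∀ s, Ge P 1 ((a * b).coeff s)) :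
    (∀ s, Ge P 1 (a.coeff s)) ∨ ∀ s, Ge P 1 (b.coeff s) := by
  have hsub : ∀ {c : MvPolynomial σ F}, (∀ s, Ge P 0 (c.coeff s)) →
      ∃ c' : MvPolynomial σ P.O, c'.map P.O.subtype = c := by
    intro c hc
    have h1 : c ∈ Set.range (MvPolynomial.map (σ := σ) (P.O.subtype : P.O →+* F)) := by
      rw [MvPolynomial.mem_range_map_iff_coeffs_subset]
      intro z hz
      obtain ⟨s, hs⟩ : ∃ s, z = c.coeff s := by
        rw [Finset.mem_coe, MvPolynomial.mem_coeffs_iff] at hz
        obtain ⟨s, -, hs⟩ := hz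
        exact ⟨s, hs⟩
      rw [hs]
      exact ⟨⟨c.coeff s, hc s⟩, rfl⟩
    obtain ⟨c', hc'⟩ := h1
    exact ⟨c', hc'⟩
  obtain ⟨a', ha'⟩ := hsub ha
  obtain ⟨b', hb'⟩ := hsub hb
  have hred : ∀ {c' : MvPolynomial σ P.O}, (∀ s, Ge P 1 ((c'.map P.O.subtype).coeff s)) ↔
      c'.map P.resHom = 0 := by
    intro c'
    have h0 : ∀ s, Ge P 1 ((c'.map P.O.subtype).coeff s) ↔ (c'.map P.resHom).coeff s = 0 := by
      intro s
      rw [MvPolynomial.coeff_map, MvPolynomial.coeff_map]
      obtain ⟨w, hw⟩ : ∃ w : P.O, w = c'.coeff s := ⟨_, rfl⟩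
      rw [← hw]
      have h1 := P.red_eq_zero_iff (f := (w : F)) w.2
      rw [P.red_of_reg w.2] at h1
      change Ge P 1 (w : F) ↔ P.resHom ⟨(w : F), w.2⟩ = 0
      rw [h1]
      exact Iff.rfl
    constructor
    · intro h
      ext s
      rw [(h0 s).1 (h s), coeff_zero]
    · intro h s
      rw [h0, h, coeff_zero]
  rw [← ha', ← hb', ← map_mul, hred, map_mul] at hab
  rcases mul_eq_zero.1 hab with h | h
  · left
    rw [← ha', hred]
    exact h
  · right
    rw [← hb', hred]
    exact h

theorem coeff_C_mul' (c : F) (b : MvPolynomial σ F) (s : σ →₀ ℕ) :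
    (C c * b).coeff s = c * b.coeff s := coeff_C_mul _ _ _

theorem ge_mul_iff {c d : ℤ} {u z : F} (hu : u ≠ 0) (hud : P.ord u = d) :
    Ge P (c + d) (u * z) ↔ Ge P c z := by
  constructor
  · rintro (h | h)
    · exact Or.inl ((mul_eq_zero.1 h).resolve_left hu)
    · by_cases hz : z = 0
      · exact Or.inl hz
      · right
        rw [P.ord_mul hu hz, hud] at h
        omega
  · rintro (h | h)
    · exact Or.inl (by rw [h, mul_zero])
    · by_cases hz : z = 0
      · exact Or.inl (by rw [hz, mul_zero])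
      · right
        rw [P.ord_mul hu hz, hud]
        omega

theorem nu_mul {a b : MvPolynomial σ F} (ha : a ≠ 0) (hb : b ≠ 0) :
    nu P (a * b) = nu P a + nu P b := by
  have hab := mul_ne_zero ha hb
  apply le_antisymm
  · by_contra hcon
    push Not at hcon
    obtain ⟨t, ht0, ht⟩ := P.surj
    obtain ⟨u, hu⟩ : ∃ u, u = t ^ (-(nu P a)) := ⟨_, rfl⟩
    obtain ⟨v, hv⟩ : ∃ v, v = t ^ (-(nu P b)) := ⟨_, rfl⟩
    have hu0 : u ≠ 0 := by
      rw [hu]
      exact zpow_ne_zero _ ht0
    have hv0 : v ≠ 0 := by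
      rw [hv]
      exact zpow_ne_zero _ ht0
    have hud : P.ord u = -(nu P a) := by
      rw [hu, P.ord_zpow, ht, mul_one]
    have hvd : P.ord v = -(nu P b) := by
      rw [hv, P.ord_zpow, ht, mul_one]
    have h1 : ∀ s, Ge P 0 ((C u * a).coeff s) := fun s => by
      rw [coeff_C_mul]
      have h2 := (ge_mul_iff P (c := nu P a) (z := a.coeff s) hu0 hud).2
        ((le_nu_iff P ha).1 le_rfl s)
      rwa [add_neg_cancel] at h2
    have h2 : ∀ s, Ge P 0 ((C v * b).coeff s) := fun s => by
      rw [coeff_C_mul]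
      have h2 := (ge_mul_iff P (c := nu P b) (z := b.coeff s) hv0 hvd).2
        ((le_nu_iff P hb).1 le_rfl s)
      rwa [add_neg_cancel] at h2
    have h3 : ∀ s, Ge P 1 ((C u * a * (C v * b)).coeff s) := fun s => by
      have h4 : C u * a * (C v * b) = C (u * v) * (a * b) := by
        rw [C_mul]
        ring
      rw [h4, coeff_C_mul]
      have h5 := (ge_mul_iff P (c := nu P a + nu P b + 1) (z := (a * b).coeff s)
        (mul_ne_zero hu0 hv0) (d := -(nu P a) + -(nu P b)) (by
          rw [P.ord_mul hu0 hv0, hud, hvd])).2 ((le_nu_iff P hab).1 (by omega) s)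
      have h6 : nu P a + nu P b + 1 + (-(nu P a) + -(nu P b)) = 1 := by ring
      rwa [h6] at h5
    rcases gauss_lemma P h1 h2 h3 with h4 | h4
    · have h5 : nu P a + 1 ≤ nu P a := (le_nu_iff P ha).2 fun s => by
        have h6 := h4 s
        rw [coeff_C_mul] at h6
        refine (ge_mul_iff P (c := nu P a + 1) (z := a.coeff s) hu0 hud).1 ?_
        have h7 : nu P a + 1 + -(nu P a) = 1 := by ring
        rwa [h7]
      omega
    · have h5 : nu P b + 1 ≤ nu P b := (le_nu_iff P hb).2 fun s => by
        have h6 := h4 s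
        rw [coeff_C_mul] at h6
        refine (ge_mul_iff P (c := nu P b + 1) (z := b.coeff s) hv0 hvd).1 ?_
        have h7 : nu P b + 1 + -(nu P b) = 1 := by ring
        rwa [h7]
      omega
  · exact (le_nu_iff P hab).2 (ge_coeff_mul P ((le_nu_iff P ha).1 le_rfl)
      ((le_nu_iff P hb).1 le_rfl))

theorem nu_add {a b : MvPolynomial σ F} (ha : a ≠ 0) (hb : b ≠ 0) (hab : a + b ≠ 0) :
    min (nu P a) (nu P b) ≤ nu P (a + b) := by
  rw [le_nu_iff P hab]
  intro s
  rw [coeff_add]
  have h1 : Ge P (min (nu P a) (nu P b)) (a.coeff s) := (le_nu_iff P ha).1 (min_le_left _ _) s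
  have h2 : Ge P (min (nu P a) (nu P b)) (b.coeff s) := (le_nu_iff P hb).1 (min_le_right _ _) s
  exact h1.add h2

theorem nu_C {c : F} (hc : c ≠ 0) : nu P (C c : MvPolynomial σ F) = P.ord c := by
  have hC : (C c : MvPolynomial σ F) ≠ 0 := by simpa using hc
  apply le_antisymm
  · have h1 := (le_nu_iff P hC).1 (le_refl (nu P (C c : MvPolynomial σ F))) 0
    rw [coeff_C, if_pos rfl, ge_iff_ord P hc] at h1
    exact h1
  · rw [le_nu_iff P hC]
    intro s
    rw [coeff_C]
    split_ifs
    · exact Or.inr le_rfl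
    · exact Or.inl rfl

end

section

variable {k F K0 : Type} [Field k] [Field F] [Field K0] [Algebra k F] [Algebra k K0]
  [Algebra F K0] [IsScalarTower k F K0] {d : ℕ} {X : Fin d → K0}

/-- **The Gauss extension of a place.** -/
theorem exists_gauss (h : Gens (k := F) X) (P : Place k F) :
    ∃ v : Place k K0, ∀ b : MvPolynomial (Fin d) F, b ≠ 0 → v.ord (aeval X b) = nu P b := by
  choose num den hden hz using h.gen
  have hnum : ∀ z, z ≠ 0 → num z ≠ 0 := by
    intro z hz0 h0
    apply hz0
    rw [hz z, h0, map_zero, zero_div]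
  have hone : nu P (1 : MvPolynomial (Fin d) F) = 0 := by
    have := nu_C P (σ := Fin d) (one_ne_zero (α := F))
    rwa [C_1, P.ord_one] at this
  -- well-definedness
  have hwd : ∀ (z : K0) (A B : MvPolynomial (Fin d) F), z ≠ 0 → B ≠ 0 →
      z = aeval X A / aeval X B → A ≠ 0 ∧ nu P (num z) - nu P (den z) = nu P A - nu P B := by
    intro z A B hz0 hB hzAB
    have hA : A ≠ 0 := by
      intro h0
      apply hz0
      rw [hzAB, h0, map_zero, zero_div]
    refine ⟨hA, ?_⟩
    have h1 : aeval X (num z * B) = aeval X (A * den z) := by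
      rw [map_mul, map_mul]
      have h3 := h.ne (hden z)
      have h4 := h.ne hB
      have h5 : aeval X A / aeval X B = aeval X (num z) / aeval X (den z) := by
        rw [← hzAB]
        exact hz z
      rw [div_eq_div_iff h4 h3] at h5
      rw [← h5]
    have h2 := h.inj h1
    have h3 := congrArg (nu P) h2
    rw [nu_mul P (hnum z hz0) hB, nu_mul P hA (hden z)] at h3
    linarith
  let o : K0 → ℤ := fun z => if z = 0 then 0 else nu P (num z) - nu P (den z)
  have ho : ∀ (z : K0) (A B : MvPolynomial (Fin d) F), z ≠ 0 → B ≠ 0 →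
      z = aeval X A / aeval X B → o z = nu P A - nu P B := by
    intro z A B hz0 hB hzAB
    simp only [o, if_neg hz0]
    exact (hwd z A B hz0 hB hzAB).2
  have hval : ∀ A, A ≠ 0 → o (aeval X A) = nu P A := by
    intro A hA
    rw [ho (aeval X A) A 1 (h.ne hA) one_ne_zero (by rw [map_one, div_one]), hone, sub_zero]
  refine ⟨⟨o, if_pos rfl, ?_, ?_, ?_, ?_⟩, hval⟩
  · intro f g hf hg
    have hnf := hnum f hf
    have hng := hnum g hg
    rw [ho (f * g) (num f * num g) (den f * den g) (mul_ne_zero hf hg)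
      (mul_ne_zero (hden f) (hden g)) (by
        rw [map_mul, map_mul]
        conv_lhs => rw [hz f, hz g]
        rw [div_mul_div_comm]), ho f _ _ hf (hden f) (hz f), ho g _ _ hg (hden g) (hz g),
      nu_mul P hnf hng, nu_mul P (hden f) (hden g)]
    ring
  · intro f g hf hg hfg
    have hnf := hnum f hf
    have hng := hnum g hg
    have hdf := hden f
    have hdg := hden g
    have h1 : f + g = aeval X (num f * den g + num g * den f) / aeval X (den f * den g) := by
      rw [map_add, map_mul, map_mul, map_mul]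
      conv_lhs => rw [hz f, hz g]
      have h3 := h.ne hdf
      have h4 := h.ne hdg
      field_simp
    have h2 := (hwd (f + g) _ _ hfg (mul_ne_zero hdf hdg) h1).1
    have h3 := nu_add P (mul_ne_zero hnf hdg) (mul_ne_zero hng hdf) h2
    rw [ho (f + g) _ _ hfg (mul_ne_zero hdf hdg) h1, ho f _ _ hf hdf (hz f),
      ho g _ _ hg hdg (hz g)]
    rw [nu_mul P hnf hdg, nu_mul P hng hdf] at h3
    rw [nu_mul P hdf hdg]
    rcases min_le_iff.1 h3 with h4 | h4
    · exact le_trans (min_le_left _ _) (by linarith)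
    · exact le_trans (min_le_right _ _) (by linarith)
  · intro c hc
    have hc' : algebraMap k F c ≠ 0 := by simpa using hc
    have h1 : algebraMap k K0 c = aeval X (C (algebraMap k F c)) := by
      rw [aeval_C, ← IsScalarTower.algebraMap_apply]
    rw [h1, hval _ (by simpa using hc), nu_C P hc', P.ord_const hc]
  · obtain ⟨t, ht0, ht⟩ := P.surj
    refine ⟨algebraMap F K0 t, by simpa using ht0, ?_⟩
    have h1 : algebraMap F K0 t = aeval X (C t) := by rw [aeval_C]
    rw [h1, hval _ (by simpa using ht0), nu_C P ht0, ht]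

end

end Pool.Agent.Run7.h562.MM
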