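import Pool.Agent.Run7.h562.MM.Gauss
import Pool.Agent.Y173.QA.Vt
import Pool.Agent.Y172.Cov2

/-!
Canonical forms on the product of a variety and a rational variety.
-/

set_option autoImplicit false
set_option linter.overlappingInstances false
set_option linter.unusedSectionVars false
set_option linter.unusedVariables false
set_option maxHeartbeats 4000000
set_option synthInstance.maxHeartbeats 400000

open FF MvPolynomial

namespace Pool.Agent.Run7.h562.MM

open Pool.Agent Pool.Agent.W603.LV Pool.Agent.W619.PQ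
open Pool.Agent.W602.GT (Divisorial RegAt IsPluri DerReg exists_der)
open Pool.Agent.TH122.AB (Gens)

open scoped Classical

section

variable {Fd K0 : Type} [Field Fd] [Field K0] [Algebra ℂ Fd] [Algebra ℂ K0] [Algebra Fd K0]
  [IsScalarTower ℂ Fd K0] {M n : ℕ} {x : Fin M → K0} {y : Fin n → Fd}

/-- the coordinates -/
def zc (x : Fin M → K0) (y : Fin n → Fd) : Fin (M + n) → K0 :=
  Fin.append x fun j => algebraMap Fd K0 (y j)

theorem zc_left (i : Fin M) : zc x y (Fin.castAdd n i) = x i := Fin.append_left _ _ _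

theorem zc_right (j : Fin n) : zc x y (Fin.natAdd M j) = algebraMap Fd K0 (y j) :=
  Fin.append_right _ _ _

/-- a derivation of `K0` on `Fd` -/
theorem der_F (hy : IsTranscendenceBasis ℂ y) (D : Derivation ℂ K0 K0) {δ : Derivation ℂ Fd Fd}
    (hD : ∀ j, D (algebraMap Fd K0 (y j)) = algebraMap Fd K0 (δ (y j))) (c : Fd) :
    D (algebraMap Fd K0 c) = algebraMap Fd K0 (δ c) := by
  choose E hE using fun i : Fin n => exists_der (L := ℂ) _ hy fun j => if i = j then (1 : Fd) else 0
  have h1 := Pool.Agent.W73.PG.PULL.chain y hy E hE D c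
  have h2 := Pool.Agent.W73.PG.PULL.expand y hy E hE δ
  rw [h1]
  conv_rhs => rw [← h2]
  rw [Pool.Agent.W73.PG.PULL.sum_app, map_sum]
  refine Finset.sum_congr rfl fun j _ => ?_
  change _ = algebraMap Fd K0 (δ (y j) * E j c)
  rw [hD, map_mul]

/-- the values of a derivation on polynomials -/
theorem der_eval (D : Derivation ℂ K0 K0) (A : Subring K0) {R : Type} [CommRing R] (φ : R →+* K0)
    (h1 : ∀ r, φ r ∈ A) (h2 : ∀ r, D (φ r) ∈ A) (hx : ∀ i, x i ∈ A) (hDx : ∀ i, D (x i) ∈ A)
    (b : MvPolynomial (Fin M) R) : eval₂ φ x b ∈ A ∧ D (eval₂ φ x b) ∈ A := by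
  induction b using MvPolynomial.induction_on with
  | C c => rw [eval₂_C]; exact ⟨h1 c, h2 c⟩
  | add f g hf hg =>
    rw [eval₂_add, map_add]
    exact ⟨A.add_mem hf.1 hg.1, A.add_mem hf.2 hg.2⟩
  | mul_X f i hf =>
    rw [eval₂_mul, eval₂_X, D.leibniz, smul_eq_mul, smul_eq_mul]
    exact ⟨A.mul_mem hf.1 (hx i), A.add_mem (A.mul_mem hf.1 (hDx i)) (A.mul_mem (hx i) hf.2)⟩

theorem reg_quot {k' : Type} [Field k'] [Algebra k' K0] (v : Place k' K0) {f b : K0}
    (hb0 : b ≠ 0) (hb : v.ord b = 0)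
    (h : v.Reg (b * f)) : v.Reg f := by
  rcases h with h | h
  · exact Or.inl ((mul_eq_zero.1 h).resolve_left hb0)
  · by_cases hf : f = 0
    · exact Or.inl hf
    · right
      rw [v.ord_mul hb0 hf, hb, zero_add] at h
      exact h

/-- the derivative of a quotient -/
theorem reg_der {k' : Type} [Field k'] [Algebra k' K0] (v : Place k' K0)
    (D : Derivation ℂ K0 K0) {f a b : K0} (hb0 : b ≠ 0)
    (hb : v.ord b = 0) (hf : v.Reg f) (he : b * f = a) (ha' : v.Reg (D a)) (hb' : v.Reg (D b)) :
    v.Reg (D f) := by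
  refine reg_quot v hb0 hb ?_
  have h1 : D a = b * D f + f * D b := by
    rw [← he, D.leibniz, smul_eq_mul, smul_eq_mul]
  have h2 : b * D f = D a - f * D b := by
    rw [h1]
    ring
  rw [h2]
  have h3 : Ge v 0 (D a) := ha'
  have h4 : Ge v 0 (f * D b) := v.reg_mul hf hb'
  exact h3.sub h4

/-- the condition on the place of an irreducible polynomial -/
def AdicF (x : Fin M → K0) (π : MvPolynomial (Fin M) Fd) (v : Place Fd K0) : Prop :=
  ∀ b : MvPolynomial (Fin M) Fd, b ≠ 0 →
    0 ≤ v.ord (aeval x b) ∧ (v.ord (aeval x b) = 0 ↔ ¬ π ∣ b)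

theorem AdicF.reg {π : MvPolynomial (Fin M) Fd} {v : Place Fd K0} (hv : AdicF x π v)
    (b : MvPolynomial (Fin M) Fd) : v.Reg (aeval x b) := by
  by_cases hb : b = 0
  · rw [hb, map_zero]
    exact v.reg_zero
  · exact Or.inr (hv b hb).1

/-- regular functions at the place of an irreducible polynomial -/
theorem AdicF.quot (h : Gens (k := Fd) x) {π : MvPolynomial (Fin M) Fd} (hπ : Irreducible π)
    {v : Place Fd K0} (hv : AdicF x π v) {f : K0} (hf : v.Reg f) :
    ∃ a b : MvPolynomial (Fin M) Fd, ¬ π ∣ b ∧ aeval x b * f = aeval x a := by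
  obtain ⟨a, b, hb, hab⟩ := h.gen f
  obtain ⟨j, b', hb', hbb⟩ := WfDvdMonoid.max_power_factor hb hπ
  have hπ0 : aeval x π ≠ 0 := h.ne hπ.ne_zero
  have hb'0 : b' ≠ 0 := by
    rintro rfl
    exact hb' (dvd_zero _)
  by_cases ha : a = 0
  · refine ⟨0, 1, fun h1 => hπ.not_isUnit (isUnit_of_dvd_one h1), ?_⟩
    rw [hab, ha, map_zero, zero_div, mul_zero]
  obtain ⟨i, a', ha', haa⟩ := WfDvdMonoid.max_power_factor ha hπ
  have ha'0 : a' ≠ 0 := by
    rintro rfl
    exact ha' (dvd_zero _)
  have hf0 : f ≠ 0 := by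
    rw [hab]
    exact div_ne_zero (h.ne ha) (h.ne hb)
  have hpos : 0 < v.ord (aeval x π) := by
    have h1 := hv π hπ.ne_zero
    rcases lt_or_eq_of_le h1.1 with h2 | h2
    · exact h2
    · exact absurd (dvd_refl π) (h1.2.1 h2.symm)
  have hord : v.ord f = (i - j : ℤ) * v.ord (aeval x π) := by
    rw [hab, v.ord_div (h.ne ha) (h.ne hb), haa, hbb, map_mul, map_mul, map_pow, map_pow,
      v.ord_mul (pow_ne_zero _ hπ0) (h.ne ha'0), v.ord_mul (pow_ne_zero _ hπ0) (h.ne hb'0),
      v.ord_pow, v.ord_pow, (hv a' ha'0).2.2 ha', (hv b' hb'0).2.2 hb']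
    ring
  have hij : j ≤ i := by
    have h1 := hf.resolve_left hf0
    rw [hord] at h1
    have h2 := nonneg_of_mul_nonneg_left h1 hpos
    omega
  refine ⟨π ^ (i - j) * a', b', hb', ?_⟩
  have h3 : π ^ i = π ^ (i - j) * π ^ j := by
    rw [← pow_add]
    congr 1
    omega
  rw [hab, haa, hbb, h3, map_mul, map_mul, map_mul, map_mul, map_pow]
  have h4 := h.ne hb'0
  have h5 : aeval x π ^ j ≠ 0 := pow_ne_zero _ hπ0
  field_simp

theorem AdicF.derReg (h : Gens (k := Fd) x) {π : MvPolynomial (Fin M) Fd} (hπ : Irreducible π)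
    {v : Place Fd K0} (hv : AdicF x π v) {D : Derivation ℂ K0 K0}
    (hD : ∀ c : Fd, ∃ c' : Fd, D (algebraMap Fd K0 c) = algebraMap Fd K0 c')
    (hDx : ∀ i, ∃ c' : Fd, D (x i) = algebraMap Fd K0 c') {f : K0} (hf : v.Reg f) :
    v.Reg (D f) := by
  obtain ⟨a, b, hb, hab⟩ := hv.quot h hπ hf
  have hb0 : b ≠ 0 := by
    rintro rfl
    exact hb (dvd_zero _)
  have hreg : ∀ c : Fd, v.Reg (algebraMap Fd K0 c) := fun c => by
    have := hv.reg (C c)
    rwa [aeval_C] at this
  have key : ∀ b : MvPolynomial (Fin M) Fd, v.Reg (D (aeval x b)) := fun b =>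
    (der_eval (x := x) D v.O.toSubring (algebraMap Fd K0) (fun r => hreg r) (fun r => by
      obtain ⟨c', hc'⟩ := hD r
      rw [hc']
      exact hreg c') (fun i => by
      have := hv.reg (X i)
      rwa [aeval_X] at this) (fun i => by
      obtain ⟨c', hc'⟩ := hDx i
      rw [hc']
      exact hreg c') b).2
  exact reg_der v D (h.ne hb0) ((hv b hb0).2.2 hb) hf hab (key a) (key b)

/-- the place as a place over `ℂ` -/
def toC (v : Place Fd K0) : Place ℂ K0 where
  ord := v.ord
  ord_zero := v.ord_zero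
  ord_mul := v.ord_mul
  ord_add := v.ord_add
  ord_const := fun {c} hc => by
    rw [IsScalarTower.algebraMap_apply ℂ Fd K0]
    exact v.ord_const (by simpa using hc)
  surj := v.surj

theorem AdicF.divisorial (h : Gens (k := Fd) x) (hz : IsTranscendenceBasis ℂ (zc x y))
    {π : MvPolynomial (Fin M) Fd}
    (hπ : Irreducible π) {v : Place Fd K0} (hv : AdicF x π v) :
    Divisorial (M + n) (toC (Fd := Fd) v) := by
  obtain ⟨l0, hl0⟩ : ∃ l0, degreeOf l0 π ≠ 0 := by
    by_contra hcon
    push Not at hcon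
    have h1 : π = C (π.coeff 0) := by
      have h2 : π.vars = ∅ := by
        rw [Finset.eq_empty_iff_forall_notMem]
        exact fun i hi => Pool.Agent.Y173.QA.mem_vars_of hi (hcon i)
      rw [MvPolynomial.vars_eq_empty_iff_eq_C] at h2
      exact h2
    have h3 : π.coeff 0 ≠ 0 := by
      intro h4
      rw [h4, C_0] at h1
      exact hπ.ne_zero h1
    apply hπ.not_isUnit
    rw [h1]
    exact (isUnit_iff_ne_zero.2 h3).map C
  obtain ⟨M', rfl⟩ : ∃ M', M = M' + 1 := ⟨M - 1, by have := l0.pos; omega⟩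
  have hM : M' + 1 + n - 1 = M' + n := by omega
  obtain ⟨u, hu⟩ : ∃ u : Fin (M' + n) → K0, u = Fin.append (fun i => x (l0.succAbove i))
    (fun j => algebraMap Fd K0 (y j)) := ⟨_, rfl⟩
  refine ⟨fun i => u (Fin.cast hM i), fun G hG => ?_⟩
  obtain ⟨G1, hG1⟩ : ∃ G1 : MvPolynomial (Fin (M' + n)) ℂ, G1 = rename (Fin.cast hM) G :=
    ⟨_, rfl⟩
  have hG10 : G1 ≠ 0 := by
    rw [hG1]
    exact (map_ne_zero_iff _ (rename_injective _ (Fin.cast_injective hM))).2 hG
  have hG1a : aeval (fun i => u (Fin.cast hM i)) G = aeval u G1 := by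
    rw [hG1, aeval_rename]
    rfl
  rw [hG1a]
  obtain ⟨G2, hG2⟩ : ∃ G2 : MvPolynomial (Fin M') Fd, G2 = aeval (Fin.append X
    (fun j => C (y j)) : Fin (M' + n) → MvPolynomial (Fin M') Fd) G1 := ⟨_, rfl⟩
  have hG2a : aeval x (rename l0.succAbove G2) = aeval u G1 := by
    rw [aeval_rename, hG2]
    have h1 : (aeval (x ∘ l0.succAbove) : MvPolynomial (Fin M') Fd →ₐ[Fd] K0)
        (aeval (Fin.append X (fun j => C (y j)) : Fin (M' + n) → MvPolynomial (Fin M') Fd) G1) =
        aeval (fun i => (aeval (x ∘ l0.succAbove) : MvPolynomial (Fin M') Fd →ₐ[Fd] K0)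
          ((Fin.append X (fun j => C (y j)) : Fin (M' + n) → MvPolynomial (Fin M') Fd) i)) G1 := by
      have h2 := MvPolynomial.comp_aeval_apply (R := ℂ) (Fin.append X (fun j => C (y j)) :
        Fin (M' + n) → MvPolynomial (Fin M') Fd)
        ((aeval (x ∘ l0.succAbove) : MvPolynomial (Fin M') Fd →ₐ[Fd] K0).restrictScalars ℂ) G1
      exact h2
    rw [h1]
    congr 2
    funext i
    rw [hu]
    refine Fin.addCases (fun i => ?_) (fun j => ?_) i
    · rw [Fin.append_left, Fin.append_left, aeval_X]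
      rfl
    · rw [Fin.append_right, Fin.append_right, aeval_C]
  -- `aeval u G1` is not zero
  have hne : aeval u G1 ≠ 0 := by
    have h1 : u = zc x y ∘ (Fin.append (fun i => Fin.castAdd n (l0.succAbove i))
        (fun j => Fin.natAdd (M' + 1) j)) := by
      funext i
      rw [hu, Function.comp_apply]
      refine Fin.addCases (fun i => ?_) (fun j => ?_) i
      · rw [Fin.append_left, Fin.append_left, zc_left]
      · rw [Fin.append_right, Fin.append_right, zc_right]
    have h2 : Function.Injective (Fin.append (fun i : Fin M' => Fin.castAdd n (l0.succAbove i))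
        (fun j : Fin n => Fin.natAdd (M' + 1) j)) := by
      intro a b
      refine Fin.addCases (fun i => ?_) (fun j => ?_) a <;>
        refine Fin.addCases (fun i' => ?_) (fun j' => ?_) b
      · intro hab
        rw [Fin.append_left, Fin.append_left] at hab
        rw [Fin.succAbove_right_injective (Fin.castAdd_injective _ _ hab)]
      · intro hab
        rw [Fin.append_left, Fin.append_right] at hab
        have := congrArg Fin.val hab
        simp at this
        have h3 := (l0.succAbove i).isLt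
        omega
      · intro hab
        rw [Fin.append_left, Fin.append_right] at hab
        have := congrArg Fin.val hab
        simp at this
        have h3 := (l0.succAbove i').isLt
        omega
      · intro hab
        rw [Fin.append_right, Fin.append_right] at hab
        rw [Fin.natAdd_injective _ _ hab]
    have h3 := hz.1.comp _ h2
    rw [← h1] at h3
    exact fun h4 => hG10 ((injective_iff_map_eq_zero _).1 h3 _ h4)
  refine ⟨hne, ?_⟩
  have hG20 : G2 ≠ 0 := by
    intro h1
    apply hne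
    rw [← hG2a, h1, map_zero, map_zero]
  have h3 := Pool.Agent.Y173.QA.not_dvd_succAbove hl0 hG20
  have h4 : rename l0.succAbove G2 ≠ 0 :=
    (map_ne_zero_iff _ (rename_injective _ Fin.succAbove_right_injective)).2 hG20
  have h5 := (hv _ h4).2.2 h3
  rw [hG2a] at h5
  exact h5

end

end Pool.Agent.Run7.h562.MM
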