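import Pool.Agent.Run7.h562.MM.Kun0

/-!
Canonical forms on the product of a variety and a rational variety: poles, and the orders of the
coefficients.
-/

set_option autoImplicit false
set_option linter.overlappingInstances false
set_option linter.unusedSectionVars false
set_option linter.unusedVariables false
set_option maxHeartbeats 4000000
set_option synthInstance.maxHeartbeats 400000

open FF MvPolynomial

namespace Pool.Agent.Run7.h562.MM

open Pool.Agent Pool.Agent.W603.LV Pool.Agent.W619.PQ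
open Pool.Agent.W602.GT (Divisorial RegAt IsPluri DerReg exists_der)
open Pool.Agent.TH122.AB (Gens)

open scoped Classical

section

variable {Fd K0 : Type} [Field Fd] [Field K0] [Algebra ℂ Fd] [Algebra ℂ K0] [Algebra Fd K0]
  [IsScalarTower ℂ Fd K0] {M n : ℕ} {x : Fin M → K0} {y : Fin n → Fd}

theorem aeval_C' (q : MvPolynomial (Fin M) ℂ) :
    aeval x (map (algebraMap ℂ Fd) q) = aeval x q := by
  rw [MvPolynomial.aeval_map_algebraMap]

theorem map_ne {q : MvPolynomial (Fin M) ℂ} (hq : q ≠ 0) : map (algebraMap ℂ Fd) q ≠ 0 :=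
  (map_ne_zero_iff _ (map_injective _ (algebraMap ℂ Fd).injective)).2 hq

/-- **A function whose poles are only at the polynomials with constant coefficients.** -/
theorem hartogs0 (h : Gens (k := Fd) x) {p : K0}
    (hp : ∀ π : MvPolynomial (Fin M) Fd, Irreducible π →
      (∀ q : MvPolynomial (Fin M) ℂ, q ≠ 0 → ¬ π ∣ map (algebraMap ℂ Fd) q) →
      ∀ v : Place Fd K0, AdicF x π v → v.Reg p) :
    ∃ q : MvPolynomial (Fin M) ℂ, q ≠ 0 ∧ ∃ b : MvPolynomial (Fin M) Fd,
      aeval x q * p = aeval x b := by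
  -- constants are regular
  have hregq : ∀ (q : MvPolynomial (Fin M) ℂ) (π : MvPolynomial (Fin M) Fd) (v : Place Fd K0),
      AdicF x π v → v.Reg (aeval x q) := by
    intro q π v hv
    rw [← aeval_C' (Fd := Fd)]
    exact hv.reg _
  have key : ∀ b : MvPolynomial (Fin M) Fd, b ≠ 0 → ∀ (a : MvPolynomial (Fin M) Fd) (p : K0),
      (∀ π : MvPolynomial (Fin M) Fd, Irreducible π →
      (∀ q : MvPolynomial (Fin M) ℂ, q ≠ 0 → ¬ π ∣ map (algebraMap ℂ Fd) q) →
      ∀ v : Place Fd K0, AdicF x π v → v.Reg p) → aeval x b * p = aeval x a →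
      ∃ q : MvPolynomial (Fin M) ℂ, q ≠ 0 ∧ ∃ b : MvPolynomial (Fin M) Fd,
        aeval x q * p = aeval x b := by
    intro b
    induction b using UniqueFactorizationMonoid.induction_on_prime with
    | h₁ => exact fun h0 => absurd rfl h0
    | h₂ b hb =>
      intro _ a p _ hab
      obtain ⟨c, hc⟩ := hb.exists_right_inv
      refine ⟨1, one_ne_zero, c * a, ?_⟩
      rw [map_one, one_mul, map_mul, ← hab, ← mul_assoc, ← map_mul, mul_comm c b, hc, map_one,
        one_mul]
    | h₃ b π hb hπ ih =>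
      intro hb0 a p hp hab
      have hπi := hπ.irreducible
      by_cases hvert : ∃ q : MvPolynomial (Fin M) ℂ, q ≠ 0 ∧ π ∣ map (algebraMap ℂ Fd) q
      · obtain ⟨q0, hq0, r, hr⟩ := hvert
        obtain ⟨q, hq, b', hb'⟩ := ih hb (a * r) (aeval x q0 * p) (fun π' hπ' hh v hv =>
          v.reg_mul (hregq q0 π' v hv) (hp π' hπ' hh v hv)) (by
            rw [← aeval_C' (Fd := Fd), hr, map_mul, map_mul, ← hab, map_mul]
            ring)
        refine ⟨q * q0, mul_ne_zero hq hq0, b', ?_⟩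
        rw [map_mul, mul_assoc]
        exact hb'
      · push Not at hvert
        obtain ⟨v, hv1, hv2⟩ := Pool.Agent.TH122.AB.exists_adic h hπi
        have hv : AdicF x π v := fun b hb => hv2 b hb
        have hreg := hp π hπi hvert v hv
        -- `π` divides `a`
        have hdvd : π ∣ a := by
          by_contra hcon
          have ha0 : a ≠ 0 := by
            rintro rfl
            exact hcon (dvd_zero _)
          have h1 := (hv a ha0).2.2 hcon
          have hp0 : p ≠ 0 := by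
            rintro rfl
            rw [mul_zero] at hab
            exact h.ne ha0 hab.symm
          rw [← hab, map_mul, v.ord_mul (mul_ne_zero (h.ne hπi.ne_zero) (h.ne hb)) hp0,
            v.ord_mul (h.ne hπi.ne_zero) (h.ne hb), hv1] at h1
          have h2 := (hv b hb).1
          have h3 := hreg.resolve_left hp0
          omega
        obtain ⟨a', rfl⟩ := hdvd
        refine ih hb a' p hp ?_
        rw [map_mul, map_mul, mul_assoc] at hab
        exact mul_left_cancel₀ (h.ne hπi.ne_zero) hab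
  obtain ⟨a, b, hb, hab⟩ := h.gen p
  exact key b hb a p hp (by rw [hab, mul_div_cancel₀ _ (h.ne hb)])

/-- polynomials with regular coefficients -/
theorem exists_lift_O (P : Place ℂ Fd) {c : MvPolynomial (Fin M) Fd} (hc : ∀ s, Ge P 0 (c.coeff s)) :
    ∃ c' : MvPolynomial (Fin M) P.O, c'.map P.O.subtype = c := by
  have h1 : c ∈ Set.range (MvPolynomial.map (σ := Fin M) (P.O.subtype : P.O →+* Fd)) := by
    rw [MvPolynomial.mem_range_map_iff_coeffs_subset]
    intro z hz
    obtain ⟨s, hs⟩ : ∃ s, z = c.coeff s := by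
      rw [Finset.mem_coe, MvPolynomial.mem_coeffs_iff] at hz
      obtain ⟨s, -, hs⟩ := hz
      exact ⟨s, hs⟩
    rw [hs]
    exact ⟨⟨c.coeff s, hc s⟩, rfl⟩
  obtain ⟨c', hc'⟩ := h1
  exact ⟨c', hc'⟩

/-- the Gauss place -/
def IsGaussP (x : Fin M → K0) (P : Place ℂ Fd) (U : Place ℂ K0) : Prop :=
  ∀ b : MvPolynomial (Fin M) Fd, b ≠ 0 → U.ord (aeval x b) = nu P b

theorem IsGaussP.ge_iff (h : Gens (k := Fd) x) {P : Place ℂ Fd} {U : Place ℂ K0}
    (hU : IsGaussP x P U) (b : MvPolynomial (Fin M) Fd) (c : ℤ) :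
    Ge U c (aeval x b) ↔ ∀ s, Ge P c (b.coeff s) := by
  by_cases hb : b = 0
  · rw [hb, map_zero]
    exact ⟨fun _ s => Or.inl (coeff_zero s), fun _ => Or.inl rfl⟩
  · rw [ge_iff_ord U (h.ne hb), hU b hb, le_nu_iff P hb]

theorem IsGaussP.const (h : Gens (k := Fd) x) {P : Place ℂ Fd} {U : Place ℂ K0}
    (hU : IsGaussP x P U) (c : Fd) : U.ord (algebraMap Fd K0 c) = P.ord c := by
  by_cases hc : c = 0
  · rw [hc, map_zero, U.ord_zero, P.ord_zero]
  · have h1 := hU (C c) (by simpa using hc)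
    rwa [aeval_C, nu_C P hc] at h1

theorem IsGaussP.unit (h : Gens (k := Fd) x) {P : Place ℂ Fd} {U : Place ℂ K0}
    (hU : IsGaussP x P U) {q : MvPolynomial (Fin M) ℂ} (hq : q ≠ 0) :
    U.ord (aeval x q) = 0 := by
  have h0 := map_ne (Fd := Fd) hq
  rw [← aeval_C' (Fd := Fd), hU _ h0]
  have h1 : ∀ s, q.coeff s ≠ 0 → P.ord ((map (algebraMap ℂ Fd) q).coeff s) = 0 := fun s hs => by
    rw [coeff_map]
    exact P.ord_const hs
  apply le_antisymm
  · obtain ⟨s, hs⟩ := MvPolynomial.ne_zero_iff.1 hq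
    have h2 := (le_nu_iff P h0).1 (le_refl (nu P (map (algebraMap ℂ Fd) q))) s
    have h3 : (map (algebraMap ℂ Fd) q).coeff s ≠ 0 := by
      rw [coeff_map]
      simpa using hs
    rw [ge_iff_ord P h3, h1 s hs] at h2
    exact h2
  · rw [le_nu_iff P h0]
    intro s
    by_cases hs : q.coeff s = 0
    · left
      rw [coeff_map, hs, map_zero]
    · exact Or.inr (h1 s hs).ge

theorem IsGaussP.reg (h : Gens (k := Fd) x) {P : Place ℂ Fd} {U : Place ℂ K0}
    (hU : IsGaussP x P U) (c : Fd) : U.Reg (algebraMap Fd K0 c) ↔ P.Reg c := by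
  have h1 := hU.ge_iff h (C c) 0
  rw [aeval_C] at h1
  constructor
  · intro h2
    have h3 := h1.1 h2 0
    rw [coeff_C, if_pos rfl] at h3
    exact h3
  · intro h2
    refine h1.2 fun s => ?_
    rw [coeff_C]
    split_ifs
    · exact h2
    · exact Or.inl rfl

/-- regular vector fields at the Gauss place -/
theorem IsGaussP.derReg (h : Gens (k := Fd) x) {P : Place ℂ Fd} {U : Place ℂ K0}
    (hU : IsGaussP x P U) {D : Derivation ℂ K0 K0} {δ : Derivation ℂ Fd Fd} (hδ : DerReg P δ)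
    (hD : ∀ c : Fd, D (algebraMap Fd K0 c) = algebraMap Fd K0 (δ c))
    (hDx : ∀ i, ∃ c' : ℂ, D (x i) = algebraMap ℂ K0 c') : DerReg U D := by
  intro f hf
  have hx1 : ∀ i, U.Reg (x i) := fun i => by
    have h1 := hU.unit h (q := (X i : MvPolynomial (Fin M) ℂ)) (X_ne_zero i)
    rw [aeval_X] at h1
    exact Or.inr h1.ge
  have key : ∀ b : MvPolynomial (Fin M) Fd, (∀ s, Ge P 0 (b.coeff s)) → U.Reg (D (aeval x b)) := by
    intro b hb
    obtain ⟨b', hb'⟩ := exists_lift_O P hb
    have h1 := (der_eval (x := x) D U.O.toSubring ((algebraMap Fd K0).comp P.O.subtype)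
      (fun r => (hU.reg h _).2 r.2) (fun r => by
        change U.Reg (D (algebraMap Fd K0 (r : Fd)))
        rw [hD, hU.reg h]
        exact hδ _ r.2) (fun i => hx1 i) (fun i => by
        obtain ⟨c', hc'⟩ := hDx i
        rw [hc']
        exact U.reg_const c') b').2
    have h2 : eval₂ ((algebraMap Fd K0).comp P.O.subtype) x b' = aeval x b := by
      rw [← hb', aeval_def, eval₂_map]
    rw [h2] at h1
    exact h1
  by_cases hf0 : f = 0
  · rw [hf0, map_zero]
    exact U.reg_zero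
  obtain ⟨a, b, hb, hab⟩ := h.gen f
  have ha : a ≠ 0 := by
    rintro rfl
    rw [map_zero, zero_div] at hab
    exact hf0 hab
  obtain ⟨t, ht0, ht⟩ := P.surj
  obtain ⟨u, hu⟩ : ∃ u, u = t ^ (-(nu P b)) := ⟨_, rfl⟩
  have hu0 : u ≠ 0 := by
    rw [hu]
    exact zpow_ne_zero _ ht0
  have hud : P.ord u = -(nu P b) := by
    rw [hu, P.ord_zpow, ht, mul_one]
  have hCu : (C u : MvPolynomial (Fin M) Fd) ≠ 0 := by simpa using hu0
  have hnb : nu P (C u * b) = 0 := by
    rw [nu_mul P hCu hb, nu_C P hu0, hud]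
    ring
  have hb1 : C u * b ≠ 0 := mul_ne_zero hCu hb
  have ha1 : C u * a ≠ 0 := mul_ne_zero hCu ha
  have he : aeval x (C u * b) * f = aeval x (C u * a) := by
    rw [hab, map_mul, map_mul, mul_assoc, mul_div_cancel₀ _ (h.ne hb)]
  have hna : 0 ≤ nu P (C u * a) := by
    rw [← hU _ ha1, ← he, U.ord_mul (h.ne hb1) hf0, hU _ hb1, hnb, zero_add]
    exact hf.resolve_left hf0
  exact reg_der U D (h.ne hb1) (by rw [hU _ hb1, hnb]) hf he
    (key _ ((le_nu_iff P ha1).1 hna)) (key _ ((le_nu_iff P hb1).1 hnb.ge))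

theorem IsGaussP.divisorial (h : Gens (k := Fd) x) {P : Place ℂ Fd} {U : Place ℂ K0}
    (hU : IsGaussP x P U) (hP : Divisorial n P) (hn : 0 < n) : Divisorial (M + n) U := by
  obtain ⟨n', rfl⟩ : ∃ n', n = n' + 1 := ⟨n - 1, by omega⟩
  obtain ⟨w, hw⟩ := hP
  have hM : M + (n' + 1) - 1 = M + n' := by omega
  have hn' : n' + 1 - 1 = n' := by omega
  obtain ⟨w', hw'⟩ : ∃ w' : Fin n' → Fd, w' = fun i => w (Fin.cast hn'.symm i) := ⟨_, rfl⟩
  have hww : ∀ G : MvPolynomial (Fin n') ℂ, G ≠ 0 → aeval w' G ≠ 0 ∧ P.ord (aeval w' G) = 0 := by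
    intro G hG
    have h1 := hw (rename (Fin.cast hn'.symm) G)
      ((map_ne_zero_iff _ (rename_injective _ (Fin.cast_injective _))).2 hG)
    rw [aeval_rename] at h1
    rw [hw']
    exact h1
  obtain ⟨u, hu⟩ : ∃ u : Fin (M + n') → K0, u = Fin.append x
    (fun j => algebraMap Fd K0 (w' j)) := ⟨_, rfl⟩
  refine ⟨fun i => u (Fin.cast hM i), fun G hG => ?_⟩
  obtain ⟨G1, hG1⟩ : ∃ G1 : MvPolynomial (Fin (M + n')) ℂ, G1 = rename (Fin.cast hM) G :=
    ⟨_, rfl⟩
  have hG10 : G1 ≠ 0 := by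
    rw [hG1]
    exact (map_ne_zero_iff _ (rename_injective _ (Fin.cast_injective hM))).2 hG
  have hG1a : aeval (fun i => u (Fin.cast hM i)) G = aeval u G1 := by
    rw [hG1, aeval_rename]
    rfl
  rw [hG1a]
  -- as a polynomial in `x` with coefficients in `ℂ[w']`
  obtain ⟨G2, hG2⟩ : ∃ G2 : MvPolynomial (Fin M) (MvPolynomial (Fin n') ℂ),
    G2 = sumAlgEquiv ℂ (Fin M) (Fin n') (rename finSumFinEquiv.symm G1) := ⟨_, rfl⟩
  have hG20 : G2 ≠ 0 := by
    rw [hG2]
    refine (map_ne_zero_iff _ (AlgEquiv.injective _)).2 ?_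
    exact (map_ne_zero_iff _ (rename_injective _ (Equiv.injective _))).2 hG10
  obtain ⟨G3, hG3⟩ : ∃ G3 : MvPolynomial (Fin M) Fd,
    G3 = G2.map ((aeval w' : MvPolynomial (Fin n') ℂ →ₐ[ℂ] Fd) : MvPolynomial (Fin n') ℂ →+* Fd) :=
    ⟨_, rfl⟩
  have hG3a : aeval x G3 = aeval u G1 := by
    have h1 : ∀ G0 : MvPolynomial (Fin M ⊕ Fin n') ℂ, aeval x ((sumAlgEquiv ℂ (Fin M) (Fin n') G0).map
        ((aeval w' : MvPolynomial (Fin n') ℂ →ₐ[ℂ] Fd) : MvPolynomial (Fin n') ℂ →+* Fd)) =
        aeval (Sum.elim x (fun j => algebraMap Fd K0 (w' j))) G0 := by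
      intro G0
      induction G0 using MvPolynomial.induction_on with
      | C c =>
        rw [sumAlgEquiv_C_inl, map_C, aeval_C, aeval_C, RingHom.coe_coe, aeval_C, ← IsScalarTower.algebraMap_apply]
      | add f g hf hg => rw [map_add, map_add, map_add, map_add, hf, hg]
      | mul_X f i hf =>
        rw [map_mul, map_mul, map_mul, map_mul, hf]
        congr 1
        rcases i with i | j
        · rw [sumAlgEquiv_X_inl, map_X, aeval_X, aeval_X, Sum.elim_inl]
        · rw [sumAlgEquiv_X_inr, map_C, aeval_C, aeval_X, Sum.elim_inr,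
            RingHom.coe_coe, aeval_X]
    rw [hG3, hG2, h1, aeval_rename]
    congr 1
    rw [hu]
    congr 1
    funext i
    rw [Function.comp_apply]
    refine Fin.addCases (fun i => ?_) (fun j => ?_) i
    · rw [finSumFinEquiv_symm_apply_castAdd, Fin.append_left, Sum.elim_inl]
    · rw [finSumFinEquiv_symm_apply_natAdd, Fin.append_right, Sum.elim_inr]
  obtain ⟨s, hs⟩ := MvPolynomial.ne_zero_iff.1 hG20
  have hc : ∀ s, G2.coeff s ≠ 0 → G3.coeff s ≠ 0 ∧ P.ord (G3.coeff s) = 0 := by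
    intro s hs
    rw [hG3, coeff_map]
    exact hww _ hs
  have hG30 : G3 ≠ 0 := MvPolynomial.ne_zero_iff.2 ⟨s, (hc s hs).1⟩
  rw [← hG3a]
  refine ⟨h.ne hG30, ?_⟩
  rw [hU _ hG30]
  apply le_antisymm
  · have h2 := (le_nu_iff P hG30).1 (le_refl (nu P G3)) s
    rw [ge_iff_ord P (hc s hs).1, (hc s hs).2] at h2
    exact h2
  · rw [le_nu_iff P hG30]
    intro s
    by_cases hs : G2.coeff s = 0
    · left
      rw [hG3, coeff_map, hs, map_zero]
    · exact Or.inr (hc s hs).2.ge

end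

end Pool.Agent.Run7.h562.MM
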