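import Pool.Agent.Run7.h562.MM.Kun1
import Pool.Agent.N145.SX.Stm

/-!
Canonical forms on the product of a variety and a rational variety.
-/

set_option autoImplicit false
set_option linter.overlappingInstances false
set_option linter.unusedSectionVars false
set_option linter.unusedVariables false
set_option maxHeartbeats 4000000
set_option synthInstance.maxHeartbeats 400000

open FF MvPolynomial

namespace Pool.Agent.Run7.h562.MM

open Pool.Agent Pool.Agent.W603.LV Pool.Agent.W619.PQ
open Pool.Agent.W602.GT (Divisorial RegAt IsPluri DerReg exists_der)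
open Pool.Agent.Y184.NT (trForm trForm_pluri)
open Pool.Agent.TH122.AB (Gens)
open Pool.Agent.N145.SX (HX)

open scoped Classical

section

variable {Fd K0 : Type} [Field Fd] [Field K0] [Algebra ℂ Fd] [Algebra ℂ K0] [Algebra Fd K0]
  [IsScalarTower ℂ Fd K0] {M n : ℕ} {x : Fin M → K0} {y : Fin n → Fd}

/-- a frame of the product -/
theorem exists_frame (hz : IsTranscendenceBasis ℂ (zc x y)) (hy : IsTranscendenceBasis ℂ y)
    (δ : Fin n → Derivation ℂ Fd Fd) :
    ∃ D : Fin (M + n) → Derivation ℂ K0 K0,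
      (∀ i l, D (Fin.castAdd n i) (x l) = if i = l then 1 else 0) ∧
      (∀ i c, D (Fin.castAdd n i) (algebraMap Fd K0 c) = 0) ∧
      (∀ j l, D (Fin.natAdd M j) (x l) = 0) ∧
      ∀ j c, D (Fin.natAdd M j) (algebraMap Fd K0 c) = algebraMap Fd K0 (δ j c) := by
  choose D1 hD1 using fun i : Fin M => exists_der (L := ℂ) _ hz
    (Fin.append (fun l => if i = l then (1 : K0) else 0) (fun _ => 0))
  choose D2 hD2 using fun j : Fin n => exists_der (L := ℂ) _ hz
    (Fin.append (fun _ => (0 : K0)) (fun l => algebraMap Fd K0 (δ j (y l))))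
  refine ⟨Fin.append D1 D2, fun i l => ?_, fun i c => ?_, fun j l => ?_, fun j c => ?_⟩
  · rw [Fin.append_left, ← zc_left (n := n) (x := x) (y := y), hD1, Fin.append_left]
  · rw [Fin.append_left]
    have h1 := der_F (K0 := K0) hy (D1 i) (δ := 0) (fun j => by
      rw [← zc_right (x := x) (y := y), hD1, Fin.append_right]
      simp) c
    rw [h1]
    simp
  · rw [Fin.append_right, ← zc_left (n := n) (x := x) (y := y), hD2, Fin.append_left]
  · rw [Fin.append_right]
    exact der_F (K0 := K0) hy (D2 j) (δ := δ j) (fun l => by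
      rw [← zc_right (x := x) (y := y), hD2, Fin.append_right]) c

theorem det_frame {δ : Fin n → Derivation ℂ Fd Fd} {D : Fin (M + n) → Derivation ℂ K0 K0}
    (h1 : ∀ i l, D (Fin.castAdd n i) (x l) = if i = l then 1 else 0)
    (h2 : ∀ i c, D (Fin.castAdd n i) (algebraMap Fd K0 c) = 0)
    (h3 : ∀ j l, D (Fin.natAdd M j) (x l) = 0)
    (h4 : ∀ j c, D (Fin.natAdd M j) (algebraMap Fd K0 c) = algebraMap Fd K0 (δ j c)) :
    (Matrix.of fun i j => D i (zc x y j) : Matrix (Fin (M + n)) (Fin (M + n)) K0).det =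
      algebraMap Fd K0 (Matrix.of fun i j => δ i (y j) : Matrix (Fin n) (Fin n) Fd).det := by
  rw [← Matrix.det_submatrix_equiv_self finSumFinEquiv]
  have h5 : (Matrix.of fun i j => D i (zc x y j) : Matrix (Fin (M + n)) (Fin (M + n)) K0).submatrix
      finSumFinEquiv finSumFinEquiv = Matrix.fromBlocks (1 : Matrix (Fin M) (Fin M) K0) 0 0
        ((algebraMap Fd K0).mapMatrix (Matrix.of fun i j => δ i (y j) :
          Matrix (Fin n) (Fin n) Fd)) := by
    ext a b
    rw [Matrix.submatrix_apply, Matrix.of_apply]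
    rcases a with i | i <;> rcases b with j | j
    · rw [finSumFinEquiv_apply_left, finSumFinEquiv_apply_left, zc_left, h1,
        Matrix.fromBlocks_apply₁₁, Matrix.one_apply]
    · rw [finSumFinEquiv_apply_left, finSumFinEquiv_apply_right, zc_right, h2,
        Matrix.fromBlocks_apply₁₂]
      rfl
    · rw [finSumFinEquiv_apply_left, finSumFinEquiv_apply_right, zc_left, h3,
        Matrix.fromBlocks_apply₂₁]
      rfl
    · rw [finSumFinEquiv_apply_right, finSumFinEquiv_apply_right, zc_right, h4,
        Matrix.fromBlocks_apply₂₂]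
      rfl
  rw [h5, Matrix.det_fromBlocks_zero₂₁, Matrix.det_one, one_mul, RingHom.map_det]

/-- **Regularity of the coordinate function along the horizontal divisors.** -/
theorem horiz (h : Gens (k := Fd) x) (hz : IsTranscendenceBasis ℂ (zc x y))
    (hy : IsTranscendenceBasis ℂ y) {p : K0}
    (hp : ∀ P : Place ℂ K0, Divisorial (M + n) P →
      (∀ q : MvPolynomial (Fin M) ℂ, q ≠ 0 → P.ord (aeval x q) = 0) →
      RegAt P (trForm (zc x y) p))
    {π : MvPolynomial (Fin M) Fd} (hπ : Irreducible π)
    (hh : ∀ q : MvPolynomial (Fin M) ℂ, q ≠ 0 → ¬ π ∣ map (algebraMap ℂ Fd) q)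
    {v : Place Fd K0} (hv : AdicF x π v) : v.Reg p := by
  choose E hE using fun i : Fin n => exists_der (L := ℂ) _ hy fun j => if i = j then (1 : Fd) else 0
  obtain ⟨D, h1, h2, h3, h4⟩ := exists_frame hz hy E
  have hreg := hp (toC v) (hv.divisorial h hz hπ) (fun q hq => by
    rw [← aeval_C' (Fd := Fd)]
    exact (hv _ (map_ne hq)).2.2 (hh q hq)) D (fun i => by
    refine Fin.addCases (fun i => ?_) (fun j => ?_) i
    · exact fun f hf => hv.derReg h hπ (fun c => ⟨0, by rw [h2, map_zero]⟩)
        (fun l => ⟨if i = l then 1 else 0, by rw [h1]; split_ifs <;> simp⟩) hf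
    · exact fun f hf => hv.derReg h hπ (fun c => ⟨E j c, h4 j c⟩)
        (fun l => ⟨0, by rw [h3, map_zero]⟩) hf)
  rw [trForm, det_frame h1 h2 h3 h4] at hreg
  have h5 : (Matrix.of fun i j => E i (y j) : Matrix (Fin n) (Fin n) Fd) = 1 := by
    ext i j
    rw [Matrix.of_apply, hE, Matrix.one_apply]
  rw [h5, Matrix.det_one, map_one, one_mul] at hreg
  exact hreg

/-- **The coefficients are canonical forms.** -/
theorem coeff_HX (h : Gens (k := Fd) x) (hz : IsTranscendenceBasis ℂ (zc x y))
    (hy : IsTranscendenceBasis ℂ y) {p : K0}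
    (hp : ∀ P : Place ℂ K0, Divisorial (M + n) P →
      (∀ q : MvPolynomial (Fin M) ℂ, q ≠ 0 → P.ord (aeval x q) = 0) →
      RegAt P (trForm (zc x y) p))
    {q : MvPolynomial (Fin M) ℂ} {b : MvPolynomial (Fin M) Fd}
    (he : aeval x q * p = aeval x b) (s : Fin M →₀ ℕ) :
    b.coeff s ∈ HX y (fun _ => False) := by
  intro P hP
  have hn : 0 < n := by
    rcases Nat.eq_zero_or_pos n with h0 | h0
    · exfalso
      subst h0
      have halg : Algebra.IsAlgebraic ℂ Fd := by
        have h1 := hy.isAlgebraic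
        rw [Set.range_eq_empty, Algebra.adjoin_empty] at h1
        refine ⟨fun z => ?_⟩
        have h2 := h1.isAlgebraic z
        exact h2.restrictScalars ℂ
      obtain ⟨t, ht0, ht⟩ := P.surj
      have h1 := ord_eq_zero_of_alg (K0 := ℂ) (K1 := Fd) (K2 := Fd) P (fun c => by
        by_cases hc : c = 0
        · rw [hc, map_zero, P.ord_zero]
        · exact P.ord_const hc) t
      rw [Algebra.algebraMap_self, RingHom.id_apply, ht] at h1
      exact one_ne_zero h1
    · exact h0
  have hmain : RegAt P (trForm y (b.coeff s)) := by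
    intro δ hδ
    obtain ⟨U, hU⟩ := exists_gauss h P
    have hU' : IsGaussP x P U := hU
    obtain ⟨D, h1, h2, h3, h4⟩ := exists_frame hz hy δ
    have hreg := hp U (hU'.divisorial h hP hn) (fun q hq => hU'.unit h hq) D (fun i => by
      refine Fin.addCases (fun i => ?_) (fun j => ?_) i
      · refine hU'.derReg h (δ := 0) (fun f _ => by
          change P.Reg 0
          exact P.reg_zero) (fun c => by
          rw [h2]
          simp) (fun l => ⟨if i = l then 1 else 0, by rw [h1]; split_ifs <;> simp⟩)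
      · exact hU'.derReg h (hδ j) (h4 j) (fun l => ⟨0, by rw [h3, map_zero]⟩))
    rw [trForm, det_frame h1 h2 h3 h4] at hreg
    have hq' : U.Reg (aeval x q) := by
      by_cases hq : q = 0
      · rw [hq, map_zero]
        exact U.reg_zero
      · exact Or.inr (hU'.unit h hq).ge
    have h5 := U.reg_mul hq' hreg
    have h6 : aeval x q * (algebraMap Fd K0 (Matrix.of fun i j => δ i (y j) :
        Matrix (Fin n) (Fin n) Fd).det * p) = aeval x (C (Matrix.of fun i j => δ i (y j) :
        Matrix (Fin n) (Fin n) Fd).det * b) := by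
      rw [map_mul, aeval_C, ← he]
      ring
    rw [h6] at h5
    have h7 := (hU'.ge_iff h _ 0).1 h5 s
    rw [coeff_C_mul] at h7
    exact h7
  exact ⟨fun D hD => hmain D fun i => Pool.Agent.TH466.QG.derReg_of_log (hD i), fun _ => hmain⟩

/-- **Canonical forms on the product of a variety and a rational variety.** -/
theorem kun0 (h : Gens (k := Fd) x) (hz : IsTranscendenceBasis ℂ (zc x y))
    (hy : IsTranscendenceBasis ℂ y) {p : K0}
    (hp : ∀ P : Place ℂ K0, Divisorial (M + n) P →
      (∀ q : MvPolynomial (Fin M) ℂ, q ≠ 0 → P.ord (aeval x q) = 0) →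
      RegAt P (trForm (zc x y) p)) :
    ∃ q : MvPolynomial (Fin M) ℂ, q ≠ 0 ∧ ∃ b : MvPolynomial (Fin M) Fd,
      (∀ s, b.coeff s ∈ HX y (fun _ => False)) ∧ aeval x q * p = aeval x b := by
  obtain ⟨q, hq, b, hb⟩ := hartogs0 h (p := p) fun π hπ hh v hv => horiz h hz hy hp hπ hh hv
  exact ⟨q, hq, b, fun s => coeff_HX h hz hy hp hb s, hb⟩

end

end Pool.Agent.Run7.h562.MM
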