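import Pool.Agent.Run7.h562.MM.Kun2
import Pool.Agent.R882.LTr
import Pool.Agent.Y297.NT.Pull
import Pool.Agent.N160.SX.CLOSED

/-!
Canonical forms on the product of two varieties are combinations of canonical forms on one factor,
with coefficients in the function field of the other one.
-/

set_option autoImplicit false
set_option linter.overlappingInstances false
set_option linter.unusedSectionVars false
set_option linter.unusedVariables false
set_option maxHeartbeats 4000000
set_option synthInstance.maxHeartbeats 400000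

open FF IntermediateField Module

namespace Pool.Agent.Run7.h562.MM

open Pool.Agent Pool.Agent.W603.LV Pool.Agent.W619.PQ
open Pool.Agent.W602.GT (Divisorial RegAt IsPluri DerReg exists_der)
open Pool.Agent.Y184.NT (trForm trForm_pluri)
open Pool.Agent.TH122.AB (Gens)
open Pool.Agent.N145.SX (HX)

open scoped Classical

/-- two homomorphisms which agree on a subfield and on a generator -/
theorem hom_ext {S E K Ω : Type} [Field S] [Field E] [Field K] [Field Ω] [Algebra S E]
    [Algebra E K] (σ τ : K →+* Ω)
    (h : ∀ s : S, σ (algebraMap E K (algebraMap S E s)) = τ (algebraMap E K (algebraMap S E s)))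
    {θ : E} (hθ : σ (algebraMap E K θ) = τ (algebraMap E K θ)) (f : Polynomial S) :
    σ (algebraMap E K (Polynomial.aeval θ f)) = τ (algebraMap E K (Polynomial.aeval θ f)) := by
  rw [Polynomial.aeval_def, Polynomial.hom_eval₂, Polynomial.hom_eval₂, Polynomial.hom_eval₂, hθ]
  congr 1
  ext s
  exact h s

section

/-- **Lagrange's formula.** `K = K0(θ)`, and `g` is a polynomial which is zero at all conjugates of
`θ` over `K0` except `θ`. -/
theorem lagrange {K0 K : Type} [Field K0] [Field K] [CharZero K0] [Algebra K0 K]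
    [FiniteDimensional K0 K] (θ : K) (g : Polynomial K)
    (hgen : ∀ σ τ : K →ₐ[K0] AlgebraicClosure K, σ θ = τ θ → σ = τ)
    (hg : ∀ σ : K →ₐ[K0] AlgebraicClosure K, σ θ ≠ algebraMap K (AlgebraicClosure K) θ →
      (g.map (algebraMap K (AlgebraicClosure K))).eval (σ θ) = 0) (u : K) :
    g.sum (fun j c => c * algebraMap K0 K (Algebra.trace K0 K (θ ^ j * u))) = g.eval θ * u := by
  have hcK : CharZero K := charZero_of_injective_algebraMap (algebraMap K0 K).injective
  have hsep : Algebra.IsSeparable K0 K := inferInstance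
  apply (algebraMap K (AlgebraicClosure K)).injective
  rw [Polynomial.sum, map_sum]
  have h1 : ∀ j : ℕ, algebraMap K (AlgebraicClosure K) (g.coeff j *
      algebraMap K0 K (Algebra.trace K0 K (θ ^ j * u))) =
      ∑ σ : K →ₐ[K0] AlgebraicClosure K, algebraMap K (AlgebraicClosure K) (g.coeff j) *
        (σ θ ^ j * σ u) := by
    intro j
    have h2 := trace_eq_sum_embeddings (K := K0) (L := K) (AlgebraicClosure K) (x := θ ^ j * u)
    rw [map_mul, ← IsScalarTower.algebraMap_apply K0 K, h2, Finset.mul_sum]
    refine Finset.sum_congr rfl fun σ _ => ?_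
    rw [map_mul, map_pow]
  rw [Finset.sum_congr rfl fun j _ => h1 j, Finset.sum_comm]
  have h3 : ∀ σ : K →ₐ[K0] AlgebraicClosure K, ∑ j ∈ g.support,
      algebraMap K (AlgebraicClosure K) (g.coeff j) * (σ θ ^ j * σ u) =
      (g.map (algebraMap K (AlgebraicClosure K))).eval (σ θ) * σ u := by
    intro σ
    rw [Polynomial.eval_map, Polynomial.eval₂_eq_sum, Polynomial.sum, Finset.sum_mul]
    exact Finset.sum_congr rfl fun j _ => by ring
  rw [Finset.sum_congr rfl fun σ _ => h3 σ]
  obtain ⟨σ0, hσ0⟩ : ∃ σ0 : K →ₐ[K0] AlgebraicClosure K, ∀ z, σ0 z =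
      algebraMap K (AlgebraicClosure K) z := ⟨IsScalarTower.toAlgHom K0 K _, fun _ => rfl⟩
  rw [Finset.sum_eq_single σ0]
  · rw [hσ0, hσ0, Polynomial.eval_map, Polynomial.eval₂_at_apply, map_mul]
  · intro σ _ hne
    rw [hg σ, zero_mul]
    intro h4
    exact hne (hgen σ σ0 (by rw [h4, hσ0]))
  · intro h4
    exact absurd (Finset.mem_univ _) h4

end

/-- the coordinates of one factor are a transcendence basis over the other one -/
theorem indep_over {K : Type} [Field K] [Algebra ℂ K] {F : IntermediateField ℂ K} {M n : ℕ}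
    {xK : Fin M → K} {y : Fin n → F} (hn : Algebra.trdeg ℂ F = n)
    (hK : Algebra.trdeg ℂ K = (M + n : ℕ))
    (hz : IsTranscendenceBasis ℂ (Fin.append xK (fun j => (y j : K)))) :
    IsTranscendenceBasis F xK := by
  obtain ⟨Kx, hKx⟩ : ∃ Kx : IntermediateField F K, Kx =
    IntermediateField.adjoin F (Set.range xK) := ⟨_, rfl⟩
  have hxm : ∀ i, xK i ∈ Kx := fun i => by
    rw [hKx]
    exact IntermediateField.subset_adjoin _ _ ⟨i, rfl⟩
  have hzalg : Algebra.IsAlgebraic (IntermediateField.adjoin ℂ (Set.range
    (Fin.append xK (fun j => (y j : K))))) K := hz.isAlgebraic_field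
  have hle : ∀ z ∈ IntermediateField.adjoin ℂ (Set.range
      (Fin.append xK (fun j => (y j : K)))), z ∈ Kx := by
    have h1 : IntermediateField.adjoin ℂ (Set.range
        (Fin.append xK (fun j => (y j : K)))) ≤ Kx.restrictScalars ℂ := by
      rw [IntermediateField.adjoin_le_iff]
      rintro _ ⟨i, rfl⟩
      refine Fin.addCases (fun i => ?_) (fun j => ?_) i
      · rw [Fin.append_left]
        exact hxm i
      · rw [Fin.append_right]
        exact Kx.algebraMap_mem (y j)
    exact h1
  have halg : Algebra.IsAlgebraic Kx K := by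
    refine ⟨fun z => ?_⟩
    let f : IntermediateField.adjoin ℂ (Set.range
        (Fin.append xK (fun j => (y j : K)))) →+* Kx :=
      { toFun := fun w => ⟨(w : K), hle w w.2⟩
        map_one' := rfl
        map_mul' := fun _ _ => rfl
        map_zero' := rfl
        map_add' := fun _ _ => rfl }
    exact (hzalg.isAlgebraic z).ringHom_of_comp_eq f (RingHom.id K) f.injective (by ext w; rfl)
  have htrF : Algebra.trdeg F K = (M : ℕ) := Pool.Agent.Y174.trdeg_LK (r := M) hn (by
    rw [hK, add_comm])
  have h2 : Algebra.IsAlgebraic (Algebra.adjoin F (Set.range xK)) K := by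
    refine Pool.Agent.W619.PQ.alg_adjoin fun z => ?_
    rw [← hKx]
    exact halg.isAlgebraic z
  refine Algebra.IsAlgebraic.isTranscendenceBasis_of_lift_le_trdeg_of_finite F _ ?_
  rw [htrF]
  simp

section

variable {K : Type} [Field K] [Algebra ℂ K] {E F : IntermediateField ℂ K} {M n : ℕ}
  {x : Fin M → E} {y : Fin n → F}

/-- **Canonical forms on a product.** -/
theorem kun [Algebra.EssFiniteType ℂ K] [Algebra.EssFiniteType ℂ E] (hsup : E ⊔ F = ⊤)
    (hx : IsTranscendenceBasis ℂ x) (hy : IsTranscendenceBasis ℂ y)
    (hn : Algebra.trdeg ℂ F = n) (hK : Algebra.trdeg ℂ K = (M + n : ℕ))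
    (hz : IsTranscendenceBasis ℂ (Fin.append (fun i => (x i : K)) (fun j => (y j : K))))
    {u : K} (hu : ∀ Q : Place ℂ K, Divisorial (M + n) Q → (∀ f : E, Q.ord (f : K) = 0) →
      RegAt Q (trForm (Fin.append (fun i => (x i : K)) (fun j => (y j : K))) u)) :
    u ∈ Submodule.span E ((fun a : F => (a : K)) '' HX y (fun _ => False)) := by
  obtain ⟨Kx, hKx⟩ : ∃ Kx : IntermediateField F K, Kx =
    IntermediateField.adjoin F (Set.range fun i => (x i : K)) := ⟨_, rfl⟩
  have hTow : IsScalarTower ℂ Kx K := IsScalarTower.of_algebraMap_eq fun c => rfl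
  have hxm : ∀ i, (x i : K) ∈ Kx := fun i => by
    rw [hKx]
    exact IntermediateField.subset_adjoin _ _ ⟨i, rfl⟩
  obtain ⟨x0, hx0⟩ : ∃ x0 : Fin M → Kx, ∀ i, (x0 i : K) = x i := ⟨fun i => ⟨_, hxm i⟩, fun _ => rfl⟩
  have hcF : CharZero F := charZero_of_injective_algebraMap (algebraMap ℂ F).injective
  have hcK : CharZero K := charZero_of_injective_algebraMap (algebraMap ℂ K).injective
  have hc0 : CharZero Kx := charZero_of_injective_algebraMap (algebraMap ℂ Kx).injective
  -- `x` are independent generators over `F`
  have hzalg : Algebra.IsAlgebraic (IntermediateField.adjoin ℂ (Set.range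
    (Fin.append (fun i => (x i : K)) (fun j => (y j : K))))) K := hz.isAlgebraic_field
  have hle : ∀ z ∈ IntermediateField.adjoin ℂ (Set.range
      (Fin.append (fun i => (x i : K)) (fun j => (y j : K)))), z ∈ Kx := by
    have h1 : IntermediateField.adjoin ℂ (Set.range
        (Fin.append (fun i => (x i : K)) (fun j => (y j : K)))) ≤ Kx.restrictScalars ℂ := by
      rw [IntermediateField.adjoin_le_iff]
      rintro _ ⟨i, rfl⟩
      refine Fin.addCases (fun i => ?_) (fun j => ?_) i
      · rw [Fin.append_left]
        exact hxm i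
      · rw [Fin.append_right]
        exact Kx.algebraMap_mem (y j)
    exact h1
  have halg : Algebra.IsAlgebraic Kx K := by
    refine ⟨fun z => ?_⟩
    let f : IntermediateField.adjoin ℂ (Set.range
        (Fin.append (fun i => (x i : K)) (fun j => (y j : K)))) →+* Kx :=
      { toFun := fun w => ⟨(w : K), hle w w.2⟩
        map_one' := rfl
        map_mul' := fun _ _ => rfl
        map_zero' := rfl
        map_add' := fun _ _ => rfl }
    exact (hzalg.isAlgebraic z).ringHom_of_comp_eq f (RingHom.id K) f.injective (by ext w; rfl)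
  have hxF : IsTranscendenceBasis F (fun i => (x i : K)) := indep_over hn hK hz
  have hx0i : AlgebraicIndependent F x0 := by
    refine AlgebraicIndependent.of_comp Kx.val ?_
    have h3 : (Kx.val ∘ x0 : Fin M → K) = fun i => (x i : K) := funext hx0
    rw [h3]
    exact hxF.1
  have hgens : Gens (k := F) x0 := by
    refine ⟨hx0i, fun z => ?_⟩
    have h1 : (z : K) ∈ IntermediateField.adjoin F (Set.range fun i => (x i : K)) := by
      rw [← hKx]
      exact z.2
    rw [IntermediateField.mem_adjoin_range_iff] at h1
    obtain ⟨a, b, hab⟩ := h1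
    have h4 : ∀ c : MvPolynomial (Fin M) F, ((MvPolynomial.aeval x0 c : Kx) : K) =
        MvPolynomial.aeval (fun i => (x i : K)) c := by
      intro c
      have h5 := MvPolynomial.aeval_algebraMap_apply K x0 c
      have h6 : (fun i => algebraMap Kx K (x0 i)) = fun i => (x i : K) := funext hx0
      have h7 : (algebraMap Kx K ∘ x0) = fun i => (x i : K) := funext hx0
      rw [h7] at h5
      exact h5.symm
    by_cases hb : b = 0
    · refine ⟨0, 1, one_ne_zero, Subtype.ext ?_⟩
      rw [hab, hb, map_zero, div_zero, map_zero, zero_div]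
      rfl
    · refine ⟨a, b, hb, Subtype.ext ?_⟩
      rw [hab, ← h4, ← h4]
      rfl
  have hess : Algebra.EssFiniteType Kx K := Algebra.EssFiniteType.of_comp ℂ Kx K
  have hfd : FiniteDimensional Kx K := by
    obtain ⟨s, hs⟩ := IntermediateField.fg_top Kx K
    have h1 : FiniteDimensional Kx (IntermediateField.adjoin Kx (s : Set K)) :=
      IntermediateField.finiteDimensional_adjoin fun x _ => (halg.isAlgebraic x).isIntegral
    rw [hs] at h1
    exact h1.equiv IntermediateField.topEquiv.toLinearEquiv
  have hessKx : Algebra.EssFiniteType ℂ Kx := Pool.Agent.TH466.QG.ess_below (K := K)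
  have htr0 : Algebra.trdeg ℂ Kx = (M + n : ℕ) := Pool.Agent.Y184.NT.trdeg_below (K := K) hK
  -- the coordinates on `Kx`
  have hcomp : ∀ j, algebraMap Kx K (zc x0 y j) =
      Fin.append (fun i => (x i : K)) (fun j => (y j : K)) j := by
    intro j
    refine Fin.addCases (fun i => ?_) (fun j => ?_) j
    · rw [zc_left, Fin.append_left]
      exact hx0 i
    · rw [zc_right, Fin.append_right]
      rfl
  have hz0 : IsTranscendenceBasis ℂ (zc x0 y) := by
    have h1 : AlgebraicIndependent ℂ (zc x0 y) := by
      refine AlgebraicIndependent.of_comp (IsScalarTower.toAlgHom ℂ Kx K) ?_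
      have h2 : ((IsScalarTower.toAlgHom ℂ Kx K : Kx →ₐ[ℂ] K) ∘ zc x0 y : Fin (M + n) → K) =
          Fin.append (fun i => (x i : K)) (fun j => (y j : K)) := funext hcomp
      rw [h2]
      exact hz.1
    refine h1.isTranscendenceBasis_of_lift_trdeg_le_of_finite ?_
    rw [htr0]
    simp
  choose E0 hE0 using fun i : Fin (M + n) => exists_der (L := ℂ) _ hz0
    fun j => if i = j then (1 : Kx) else 0
  choose E1 hE1 using fun i => Pool.Agent.Y172.exists_lift (L := K) htr0 (E0 i)
  -- the traces
  have htrace : ∀ e : E, ∃ q : MvPolynomial (Fin M) ℂ, q ≠ 0 ∧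
      ∃ b : MvPolynomial (Fin M) F, (∀ s, b.coeff s ∈ HX y (fun _ => False)) ∧
      MvPolynomial.aeval x0 q * Algebra.trace Kx K ((e : K) * u) = MvPolynomial.aeval x0 b := by
    intro e
    refine kun0 hgens hz0 hy fun P hP hPq => ?_
    have h1 := Pool.Agent.R882.LT.trForm_regAt htr0 hz0 hE0 hE1
      (trForm (Fin.append (fun i => (x i : K)) (fun j => (y j : K))) ((e : K) * u))
      (trForm_pluri _ _) P hP (fun Q a hQ => ?_)
    · have h2 : trForm (Fin.append (fun i => (x i : K)) (fun j => (y j : K))) ((e : K) * u) E1 =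
          (e : K) * u := by
        have h3 : (Matrix.of fun i j => E1 i (Fin.append (fun i => (x i : K))
            (fun j => (y j : K)) j) : Matrix (Fin (M + n)) (Fin (M + n)) K) = 1 := by
          ext i j
          rw [Matrix.of_apply, ← hcomp, hE1, hE0, Matrix.one_apply]
          split_ifs
          · exact map_one _
          · exact map_zero _
        rw [trForm, h3, Matrix.det_one, one_mul]
      rw [h2] at h1
      exact h1
    · -- `e` is a unit at `Q`
      have h3 : ∀ f : IntermediateField.adjoin ℂ (Set.range x),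
          Q.ord (algebraMap E K (f : E)) = 0 := by
        intro f
        have h4 := f.2
        rw [IntermediateField.mem_adjoin_range_iff] at h4
        obtain ⟨a', b', hab⟩ := h4
        have h5 : ∀ c : MvPolynomial (Fin M) ℂ, Q.ord (algebraMap E K (MvPolynomial.aeval x c)) =
            0 := by
          intro c
          have h6 : algebraMap E K (MvPolynomial.aeval x c) =
              algebraMap Kx K (MvPolynomial.aeval x0 c) := by
            rw [← MvPolynomial.aeval_algebraMap_apply, ← MvPolynomial.aeval_algebraMap_apply]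
            congr 2
            funext i
            exact (hx0 i).symm
          rw [h6, hQ.2]
          by_cases hc : c = 0
          · rw [hc, map_zero, P.ord_zero, mul_zero]
          · rw [hPq c hc, mul_zero]
        rw [hab]
        by_cases ha : MvPolynomial.aeval x a' = 0
        · rw [ha, zero_div, map_zero, Q.ord_zero]
        by_cases hb : MvPolynomial.aeval x b' = 0
        · rw [hb, div_zero, map_zero, Q.ord_zero]
        rw [map_div₀, Q.ord_div ((_root_.map_ne_zero _).2 ha) ((_root_.map_ne_zero _).2 hb), h5, h5,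
          sub_zero]
      have halgE : Algebra.IsAlgebraic (IntermediateField.adjoin ℂ (Set.range x)) E :=
        hx.isAlgebraic_field
      have h4 : ∀ e : E, Q.ord (algebraMap E K e) = 0 :=
        ord_eq_zero_of_alg (K0 := IntermediateField.adjoin ℂ (Set.range x)) (K1 := E) (K2 := K)
          Q (fun f => h3 f)
      intro D hD
      have h5 := hu Q (Pool.Agent.Y172.divisorial_up hQ hP) h4 D hD
      have h6 : trForm (Fin.append (fun i => (x i : K)) (fun j => (y j : K))) ((e : K) * u) D =
          (e : K) * trForm (Fin.append (fun i => (x i : K)) (fun j => (y j : K))) u D := by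
        unfold trForm
        ring
      rw [h6]
      exact Q.reg_mul (Or.inr (h4 e).ge) h5
  -- the traces are combinations
  have hspan : ∀ e : E, algebraMap Kx K (Algebra.trace Kx K ((e : K) * u)) ∈
      Submodule.span E ((fun a : F => (a : K)) '' HX y (fun _ => False)) := by
    intro e
    obtain ⟨q, hq, b, hb, he⟩ := htrace e
    have hqx : MvPolynomial.aeval x q ≠ 0 := fun h0 =>
      hq ((injective_iff_map_eq_zero _).1 hx.1 _ h0)
    have h6 : ((MvPolynomial.aeval x q : E) : K) =
        algebraMap Kx K (MvPolynomial.aeval x0 q) := by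
      change algebraMap E K (MvPolynomial.aeval x q) = _
      rw [← MvPolynomial.aeval_algebraMap_apply, ← MvPolynomial.aeval_algebraMap_apply]
      congr 2
      funext i
      exact (hx0 i).symm
    have h7 : algebraMap Kx K (Algebra.trace Kx K ((e : K) * u)) =
        (MvPolynomial.aeval x q)⁻¹ • ∑ s ∈ b.support, (∏ i, x i ^ s i) • ((b.coeff s : F) : K) := by
      have h8 : (MvPolynomial.aeval x q) • algebraMap Kx K (Algebra.trace Kx K ((e : K) * u)) =
          ∑ s ∈ b.support, (∏ i, x i ^ s i) • ((b.coeff s : F) : K) := by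
        rw [Algebra.smul_def]
        change ((MvPolynomial.aeval x q : E) : K) * _ = _
        rw [h6, ← map_mul, he, MvPolynomial.aeval_eq_eval₂Hom, MvPolynomial.coe_eval₂Hom,
          MvPolynomial.eval₂_eq', map_sum]
        refine Finset.sum_congr rfl fun s _ => ?_
        rw [map_mul, map_prod, Algebra.smul_def, map_prod, mul_comm]
        congr 1
        refine Finset.prod_congr rfl fun i _ => ?_
        rw [map_pow, map_pow]
        congr 1
        exact hx0 i
      rw [← h8, smul_smul, inv_mul_cancel₀ hqx, one_smul]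
    rw [h7]
    refine Submodule.smul_mem _ _ (Submodule.sum_mem _ fun s _ => Submodule.smul_mem _ _
      (Submodule.subset_span ⟨b.coeff s, hb s, rfl⟩))
  -- Lagrange's formula
  have hfdE : FiniteDimensional (IntermediateField.adjoin ℂ (Set.range x)) E :=
    Pool.Agent.Y297.NT.fd_basis hx
  obtain ⟨S, hS⟩ : ∃ S, S = IntermediateField.adjoin ℂ (Set.range x) := ⟨_, rfl⟩
  rw [← hS] at hfdE
  have hcS : CharZero S := charZero_of_injective_algebraMap (algebraMap ℂ S).injective
  let pb := Field.powerBasisOfFiniteOfSeparable S E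
  obtain ⟨θ, hθ⟩ : ∃ θ, θ = pb.gen := ⟨_, rfl⟩
  have hint : IsIntegral S θ := Algebra.IsIntegral.isIntegral θ
  have hSK : ∀ s ∈ S, (s : K) ∈ Kx := by
    have h1 : S ≤ (Kx.restrictScalars ℂ).comap E.val := by
      rw [hS, IntermediateField.adjoin_le_iff]
      rintro _ ⟨i, rfl⟩
      exact hxm i
    exact h1
  have hσS : ∀ (σ τ : K →ₐ[Kx] AlgebraicClosure K) (s : S), σ ((s : E) : K) = τ ((s : E) : K) := by
    intro σ τ s
    have h1 := σ.commutes ⟨_, hSK s s.2⟩
    have h2 := τ.commutes ⟨_, hSK s s.2⟩
    exact h1.trans h2.symm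
  obtain ⟨g, hg⟩ : ∃ g : Polynomial E, g = minpolyDiv S θ := ⟨_, rfl⟩
  have hgθ : g.eval θ ≠ 0 := by
    rw [hg, eval_minpolyDiv_self]
    exact (Algebra.IsSeparable.isSeparable S θ).aeval_derivative_ne_zero (minpoly.aeval S θ)
  have hL := lagrange (K0 := Kx) (K := K) (θ : K) (g.map (algebraMap E K)) (by
    intro σ τ hστ
    have hE : ∀ e : E, σ (e : K) = τ (e : K) := by
      intro e
      obtain ⟨f, hf⟩ := pb.exists_eq_aeval' e
      rw [← hθ] at hf
      rw [hf]
      exact hom_ext (S := S) (E := E) (θ := θ) (σ : K →+* AlgebraicClosure K)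
        (τ : K →+* AlgebraicClosure K) (fun s => hσS σ τ s) hστ f
    have hF : ∀ a : F, σ (a : K) = τ (a : K) := by
      intro a
      have h1 := σ.commutes (algebraMap F Kx a)
      have h2 := τ.commutes (algebraMap F Kx a)
      exact h1.trans h2.symm
    let eq0 : IntermediateField ℂ K :=
      { carrier := {z | σ z = τ z}
        mul_mem' := fun {a b} ha hb => by
          change σ (a * b) = τ (a * b)
          rw [map_mul, map_mul, show σ a = τ a from ha, show σ b = τ b from hb]
        add_mem' := fun {a b} ha hb => by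
          change σ (a + b) = τ (a + b)
          rw [map_add, map_add, show σ a = τ a from ha, show σ b = τ b from hb]
        algebraMap_mem' := fun c => hF (algebraMap ℂ F c)
        inv_mem' := fun a ha => by
          change σ a⁻¹ = τ a⁻¹
          rw [map_inv₀, map_inv₀, show σ a = τ a from ha] }
    have h1 : E ⊔ F ≤ eq0 := sup_le (fun z hz => hE ⟨z, hz⟩) fun z hz => hF ⟨z, hz⟩
    rw [hsup] at h1
    exact AlgHom.ext fun z => h1 (IntermediateField.mem_top (x := z))) (by
    intro σ hσ
    have h1 : (minpolyDiv S θ) * (Polynomial.X - Polynomial.C θ) =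
        (minpoly S θ).map (algebraMap S E) := minpolyDiv_spec S θ
    rw [← hg] at h1
    -- evaluate at `σ θ`
    have h2 := congrArg (fun p : Polynomial E => (p.map ((algebraMap K (AlgebraicClosure K)).comp
      (algebraMap E K))).eval (σ (θ : K))) h1
    simp only [Polynomial.map_mul, Polynomial.map_sub, Polynomial.map_X, Polynomial.map_C,
      Polynomial.eval_mul, Polynomial.eval_sub, Polynomial.eval_X, Polynomial.eval_C,
      Polynomial.map_map] at h2
    have h3 : ((minpoly S θ).map (((algebraMap K (AlgebraicClosure K)).comp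
        (algebraMap E K)).comp (algebraMap S E))).eval (σ (θ : K)) = 0 := by
      have h4 : ((algebraMap K (AlgebraicClosure K)).comp (algebraMap E K)).comp
          (algebraMap S E) = (σ : K →+* AlgebraicClosure K).comp ((algebraMap E K).comp
            (algebraMap S E)) := by
        ext s
        exact hσS (IsScalarTower.toAlgHom Kx K _) σ s
      rw [h4, Polynomial.eval_map]
      have h5 : (σ : K →+* AlgebraicClosure K) (Polynomial.eval₂ ((algebraMap E K).comp
          (algebraMap S E)) (θ : K) (minpoly S θ)) = 0 := by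
        have h6 : Polynomial.eval₂ ((algebraMap E K).comp (algebraMap S E)) (θ : K)
            (minpoly S θ) = algebraMap E K (Polynomial.aeval θ (minpoly S θ)) := by
          rw [Polynomial.aeval_def, Polynomial.hom_eval₂]
          rfl
        rw [h6, minpoly.aeval, map_zero, map_zero]
      rw [Polynomial.hom_eval₂] at h5
      exact h5
    rw [h3] at h2
    have h4 := (mul_eq_zero.1 h2).resolve_right (fun h5 => hσ (sub_eq_zero.1 h5))
    rw [Polynomial.map_map]
    exact h4) u
  have h8 : ((g.map (algebraMap E K)).eval (θ : K)) = algebraMap E K (g.eval θ) := by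
    rw [Polynomial.eval_map]
    exact Polynomial.eval₂_at_apply (algebraMap E K) θ
  rw [h8] at hL
  have h9 : u = (g.eval θ)⁻¹ • (algebraMap E K (g.eval θ) * u) := by
    rw [Algebra.smul_def, ← mul_assoc, ← map_mul, inv_mul_cancel₀ hgθ, map_one, one_mul]
  rw [h9, ← hL]
  refine Submodule.smul_mem _ _ ?_
  rw [Polynomial.sum]
  refine Submodule.sum_mem _ fun j _ => ?_
  rw [Polynomial.coeff_map, ← Algebra.smul_def]
  refine Submodule.smul_mem _ _ ?_
  have h10 := hspan (θ ^ j)
  have h11 : (((θ ^ j : E) : K)) = (θ : K) ^ j := rfl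
  rw [h11] at h10
  exact h10

end

end Pool.Agent.Run7.h562.MM
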