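import Pool.Agent.Run7.h562.MM.Core
import Pool.Agent.Run7.h562.MM.Kun3

/-!
The dimension of the canonical image of varieties dominated by products.
-/

set_option autoImplicit false
set_option linter.overlappingInstances false
set_option linter.unusedSectionVars false
set_option linter.unusedVariables false
set_option maxHeartbeats 4000000
set_option synthInstance.maxHeartbeats 400000

open FF IntermediateField Module

namespace Pool.Agent.Run7.h562.MM

open Pool.Agent Pool.Agent.W603.LV Pool.Agent.W619.PQ Pool.Agent.N145.PC Pool.Agent.N145.PL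
  Pool.Agent.N145.SX
open Pool.Agent.W602.GT (Divisorial RegAt IsPluri DerReg DerLog LogAt KodGe LogSec Psef)
open Pool.Agent.Y184.NT (trForm trForm_pluri)
open Pool.Agent.R882.LT (SecAt LogGenusZero)

open scoped Classical

section alg

variable {K : Type} [Field K] [Algebra ℂ K]

/-- independent functions which are algebraic over functions -/
theorem card_le_of_alg {p q : ℕ} {w : Fin p → K} {r : Fin q → K} (hr : AlgebraicIndependent ℂ r)
    (halg : ∀ j, IsAlgebraic (IntermediateField.adjoin ℂ (Set.range w)) (r j)) : q ≤ p := by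
  obtain ⟨S, hS⟩ : ∃ S, S = IntermediateField.adjoin ℂ (Set.range w) := ⟨_, rfl⟩
  rw [← hS] at halg
  obtain ⟨A, hA⟩ : ∃ A : IntermediateField ℂ K, A = (algebraicClosure S K).restrictScalars ℂ :=
    ⟨_, rfl⟩
  have hmem : ∀ z, z ∈ A ↔ IsAlgebraic S z := fun z => by
    rw [hA, mem_restrictScalars, mem_algebraicClosure_iff]
  have hwA : ∀ i, w i ∈ A := fun i => (hmem _).2 (by
    have h1 : w i ∈ S := by
      rw [hS]
      exact IntermediateField.subset_adjoin _ _ ⟨i, rfl⟩
    exact isAlgebraic_algebraMap (⟨w i, h1⟩ : S))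
  obtain ⟨w', hw'⟩ : ∃ w' : Fin p → A, ∀ i, (w' i : K) = w i := ⟨fun i => ⟨_, hwA i⟩, fun _ => rfl⟩
  obtain ⟨r', hr'⟩ : ∃ r' : Fin q → A, ∀ i, (r' i : K) = r i :=
    ⟨fun i => ⟨_, (hmem _).2 (halg i)⟩, fun _ => rfl⟩
  have hri : AlgebraicIndependent ℂ r' := by
    refine AlgebraicIndependent.of_comp A.val ?_
    have h1 : (A.val ∘ r' : Fin q → K) = r := funext hr'
    rwa [h1]
  have h1 : Algebra.IsAlgebraic (Algebra.adjoin ℂ (Set.range w')) A := by
    refine Pool.Agent.W619.PQ.alg_adjoin fun z => ?_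
    have h2 := (hmem _).1 z.2
    obtain ⟨B, hB⟩ : ∃ B, B = IntermediateField.adjoin ℂ (Set.range w') := ⟨_, rfl⟩
    rw [← hB]
    have h3 : ∀ s ∈ S, ∃ b : B, ((b : A) : K) = s := by
      have h4 : S ≤ B.map A.val := by
        rw [hS, IntermediateField.adjoin_le_iff]
        rintro _ ⟨i, rfl⟩
        refine ⟨w' i, ?_, hw' i⟩
        rw [hB]
        exact IntermediateField.subset_adjoin _ _ ⟨i, rfl⟩
      intro s hs
      obtain ⟨b, hb, hbs⟩ := h4 hs
      exact ⟨⟨b, hb⟩, hbs⟩
    choose f hf using fun s : S => h3 s s.2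
    let f' : S →+* B :=
      { toFun := f
        map_one' := Subtype.ext (Subtype.ext (by rw [hf]; rfl))
        map_mul' := fun a b => Subtype.ext (Subtype.ext (by
          rw [hf]
          change _ = (((f a : A) : K)) * (((f b : A) : K))
          rw [hf, hf]
          rfl))
        map_zero' := Subtype.ext (Subtype.ext (by rw [hf]; rfl))
        map_add' := fun a b => Subtype.ext (Subtype.ext (by
          rw [hf]
          change _ = (((f a : A) : K)) + (((f b : A) : K))
          rw [hf, hf]
          rfl)) }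
    have h5 : IsAlgebraic B (z : K) := h2.ringHom_of_comp_eq f' (RingHom.id K) f'.injective (by
      ext s
      exact hf s)
    exact (isAlgebraic_algebraMap_iff (R := B) (A := K) (algebraMap A K).injective).1 h5
  have h2 : Algebra.trdeg ℂ A ≤ p := by
    refine (Algebra.IsAlgebraic.trdeg_le_cardinalMk (R := ℂ) (A := A) (Set.range w')).trans ?_
    refine Cardinal.mk_range_le.trans ?_
    simp
  have h3 := hri.lift_cardinalMk_le_trdeg
  simp only [Cardinal.mk_fin, Cardinal.lift_id] at h3
  exact_mod_cast h3.trans h2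

/-- a family which is independent over a subfield -/
theorem choose_indep {E : IntermediateField ℂ K} {N s : ℕ} (hE : Algebra.trdeg ℂ E = N)
    {r : Fin (N + s) → K} (hr : AlgebraicIndependent ℂ r) :
    ∃ ι : Fin s → Fin (N + s), AlgebraicIndependent E (fun i => r (ι i)) := by
  obtain ⟨A, hA⟩ : ∃ A, A = IntermediateField.adjoin E (Set.range r) := ⟨_, rfl⟩
  have hrA : ∀ i, r i ∈ A := fun i => by
    rw [hA]
    exact IntermediateField.subset_adjoin _ _ ⟨i, rfl⟩
  obtain ⟨r', hr'⟩ : ∃ r' : Fin (N + s) → A, ∀ i, (r' i : K) = r i :=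
    ⟨fun i => ⟨_, hrA i⟩, fun _ => rfl⟩
  have htop : IntermediateField.adjoin E (Set.range r') = ⊤ := by
    have h1 : (IntermediateField.adjoin E (Set.range r')).map A.val =
        (⊤ : IntermediateField E A).map A.val := by
      rw [IntermediateField.adjoin_map, ← AlgHom.fieldRange_eq_map,
        IntermediateField.fieldRange_val]
      refine Eq.trans ?_ hA.symm
      congr 1
      ext z
      simp only [Set.mem_image, Set.mem_range]
      constructor
      · rintro ⟨_, ⟨i, rfl⟩, rfl⟩
        exact ⟨i, (hr' i).symm⟩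
      · rintro ⟨i, rfl⟩
        exact ⟨_, ⟨i, rfl⟩, hr' i⟩
    exact IntermediateField.map_injective _ h1
  have halg : Algebra.IsAlgebraic (Algebra.adjoin E (Set.range r')) A := by
    refine Pool.Agent.W619.PQ.alg_adjoin fun z => ?_
    rw [htop]
    exact isAlgebraic_algebraMap (⟨z, IntermediateField.mem_top⟩ : (⊤ : IntermediateField E A))
  obtain ⟨t, hts, ht⟩ := exists_isTranscendenceBasis_subset (R := E) (Set.range r')
  have hfin : t.Finite := (Set.finite_range r').subset hts
  have hft : Fintype t := hfin.fintype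
  have h1 : Algebra.trdeg E A = Fintype.card t := by
    have h2 := ht.cardinalMk_eq_trdeg
    rw [← h2]
    simp
  have h2 : (N + s : ℕ) ≤ Algebra.trdeg ℂ A := by
    have h3 : AlgebraicIndependent ℂ r' := by
      have hTow : IsScalarTower ℂ A K := IsScalarTower.of_algebraMap_eq fun c => rfl
      refine AlgebraicIndependent.of_comp (IsScalarTower.toAlgHom ℂ A K) ?_
      have h4 : ((IsScalarTower.toAlgHom ℂ A K : A →ₐ[ℂ] K) ∘ r' : Fin (N + s) → K) = r :=
        funext hr'
      rwa [h4]
    have h5 := h3.lift_cardinalMk_le_trdeg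
    simpa using h5
  have h3 := trdeg_add_eq ℂ E (A := A)
  rw [hE, h1] at h3
  rw [← h3] at h2
  have h4 : N + s ≤ N + Fintype.card t := by exact_mod_cast h2
  have h5 : s ≤ Fintype.card t := by omega
  obtain ⟨em⟩ : Nonempty (Fin s ↪ t) := by
    rw [Function.Embedding.nonempty_iff_card_le]
    simpa using h5
  choose ι hι using fun i : Fin s => hts (em i).2
  refine ⟨ι, ?_⟩
  have h6 : AlgebraicIndependent E (fun i : Fin s => ((em i : t) : A)) := ht.1.comp em em.injective
  have h7 := h6.map' (f := A.val) A.val.injective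
  have h8 : (A.val ∘ fun i : Fin s => ((em i : t) : A)) = fun i => r (ι i) := by
    funext i
    change (((em i : t) : A) : K) = _
    rw [← hι i, hr']
  rwa [h8] at h7

/-- coordinates and functions which are independent over the subfield -/
theorem indep_append {E : IntermediateField ℂ K} {N s : ℕ} {x : Fin N → E}
    (hx : AlgebraicIndependent ℂ x) {r : Fin s → K} (hr : AlgebraicIndependent E r) :
    AlgebraicIndependent ℂ (Fin.append (fun l => (x l : K)) r) := by
  have h2 := hx.sumElim_comp hr
  have h3 := h2.comp (fun i : Fin (N + s) => (finSumFinEquiv.symm i).swap)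
    (Sum.swap_leftInverse.injective.comp (Equiv.injective _))
  have h4 : (Sum.elim r (algebraMap E K ∘ x) ∘ fun i : Fin (N + s) =>
      (finSumFinEquiv.symm i).swap) = Fin.append (fun l => (x l : K)) r := by
    funext i
    rw [Function.comp_apply]
    refine Fin.addCases (fun i => ?_) (fun j => ?_) i
    · rw [finSumFinEquiv_symm_apply_castAdd, Fin.append_left, Sum.swap_inl, Sum.elim_inr]
      rfl
    · rw [finSumFinEquiv_symm_apply_natAdd, Fin.append_right, Sum.swap_inr, Sum.elim_inl]
  rwa [h4] at h3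

end alg

section

variable {K : Type} [Field K] [Algebra ℂ K] {L : Type} [Field L] [Algebra ℂ L] [Algebra L K]
  [IsScalarTower ℂ L K]

/-- the canonical forms of the generic fibre of a variety with the function field `M` over the
variety with the function field `E` have ratios which contain `s` functions which are
algebraically independent over `E` -/
def FibGe (M : IntermediateField L K) (E : IntermediateField ℂ K) (N s : ℕ) : Prop :=
  ∃ ω : Fin (s + 1) → (Fin N → Derivation ℂ M M) → M,
    (∀ j, IsPluri 1 (ω j) ∧ ∀ P : Place ℂ M, Divisorial N P →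
      (∀ f : M, (f : K) ∈ E → P.ord f = 0) → RegAt P (ω j)) ∧
    ∃ D, ω 0 D ≠ 0 ∧ AlgebraicIndependent E (fun i : Fin s => ((ω i.succ D / ω 0 D : M) : K))

/-- pull-backs to the fibres -/
theorem fib_of [FiniteDimensional L K] [Algebra.EssFiniteType ℂ K] {N s : ℕ}
    (hK : Algebra.trdeg ℂ K = (N : ℕ)) {M : IntermediateField L K} {E : IntermediateField ℂ K}
    {ω : Fin (s + 1) → (Fin N → Derivation ℂ L L) → L}
    (hω : ∀ j, IsPluri 1 (ω j) ∧ ∀ P : Place ℂ L, Divisorial N P → RegAt P (ω j))
    {D : Fin N → Derivation ℂ L L} (hD : ω 0 D ≠ 0)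
    (hind : AlgebraicIndependent E (fun i : Fin s => algebraMap L K (ω i.succ D / ω 0 D))) :
    FibGe M E N s := by
  have hTow : IsScalarTower ℂ M K := IsScalarTower.of_algebraMap_eq fun c => rfl
  have hL : Algebra.trdeg ℂ L = (N : ℕ) := Pool.Agent.Y184.NT.trdeg_below (K := K) hK
  have hM : Algebra.trdeg ℂ M = (N : ℕ) := Pool.Agent.Y184.NT.trdeg_below (K := K) hK
  have hessL : Algebra.EssFiniteType ℂ L := Pool.Agent.TH466.QG.ess_below (K := K)
  obtain ⟨y, G, hy, hG⟩ := Pool.Agent.Y172.exists_crd hL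
  choose G' hG' using fun i => Pool.Agent.Y172.exists_lift (L := M) hL (G i)
  have hval : ∀ t : M, trForm (fun j => algebraMap L M (y j)) t G' = t := by
    intro t
    have h1 : (Matrix.of fun i j => G' i (algebraMap L M (y j)) : Matrix (Fin N) (Fin N) M) = 1 := by
      ext i j
      rw [Matrix.of_apply, hG', hG, Matrix.one_apply]
      split_ifs
      · exact map_one _
      · exact map_zero _
    rw [trForm, h1, Matrix.det_one, one_mul]
  have hrat : ∀ j, ω j D = (Matrix.of fun i j => D i (y j)).det ^ 1 * ω j G := fun j =>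
    Pool.Agent.Y172.pluri_coord hy hG (hω j).1 D
  have hdet : (Matrix.of fun i j => D i (y j) : Matrix (Fin N) (Fin N) L).det ≠ 0 := by
    intro h0
    rw [hrat, h0, pow_one, zero_mul] at hD
    exact hD rfl
  have hG0 : ω 0 G ≠ 0 := by
    intro h0
    rw [hrat, h0, mul_zero] at hD
    exact hD rfl
  refine ⟨fun j => trForm (fun j => algebraMap L M (y j)) (algebraMap L M (ω j G)), fun j =>
    ⟨trForm_pluri _ _, fun P hP _ D' hD' => ?_⟩, G', ?_, ?_⟩
  · have h1 := pull_local hL hM hy hG (hω j).1 P hP (fun P' a hP' => (hω j).2 P'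
      (Pool.Agent.Y71.NT.t_abh L M N N hL hM P P' a hP' hP)) hD'
    exact h1
  · change trForm (fun j => algebraMap L M (y j)) (algebraMap L M (ω 0 G)) G' ≠ 0
    rw [hval]
    simpa using hG0
  · simp only [hval]
    have h1 : (fun i : Fin s => ((algebraMap L M (ω i.succ G) / algebraMap L M (ω 0 G) : M) : K)) =
        fun i => algebraMap L K (ω i.succ D / ω 0 D) := by
      funext i
      rw [hrat, hrat, pow_one, mul_div_mul_left _ _ hdet, ← map_div₀]
      rfl
    rw [h1]
    exact hind

end

section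

variable {K : Type} [Field K] [Algebra ℂ K] {k : ℕ} {F : Fin (k + 1) → IntermediateField ℂ K}
  {m : Fin k → ℕ} {n : ℕ}

variable {L : Type} [Field L] [Algebra ℂ L]
  [Algebra L K] [IsScalarTower ℂ L K] [FiniteDimensional L K]

/-- **Canonical forms of the fibres give canonical forms of the variety.** -/
theorem from_fibre [Algebra.EssFiniteType ℂ K]
    [∀ i, Algebra.EssFiniteType ℂ (F i)] (hsup : ⨆ i, F i = ⊤)
    (hm : ∀ i : Fin k, Algebra.trdeg ℂ (F i.castSucc) = m i)
    (hn : Algebra.trdeg ℂ (F (Fin.last k)) = n) {N : ℕ} (e : Fin N ≃ (i : Fin k) × Fin (m i))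
    (hK : Algebra.trdeg ℂ K = (N + n : ℕ)) {x : ∀ i : Fin k, Fin (m i) → F i.castSucc}
    (hx : ∀ i, IsTranscendenceBasis ℂ (x i)) {y : Fin n → F (Fin.last k)}
    (hy : IsTranscendenceBasis ℂ y)
    {g : Fin k → ℕ} (hsep : ∀ i, SepX (x i) (fun _ => False) (g i))
    (hd : ∀ i : Fin k, 2 * finrank (MF F L (Js (k + 1) i)) (IntermediateField.adjoin
      (MF F L (Js (k + 1) i)) (F i.castSucc : Set K)) < g i) {s : ℕ}
    (hf : FibGe (MF F L (Finset.univ.erase (Fin.last k))) (⨆ i : Fin k, F i.castSucc) (N + n) s) :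
    CanGe L (N + n) (N + s) := by
  have hz := basis_all hsup hK hx hy e
  have hL : Algebra.trdeg ℂ L = (N + n : ℕ) := Pool.Agent.Y184.NT.trdeg_below (K := K) hK
  have hessL : Algebra.EssFiniteType ℂ L := Pool.Agent.TH466.QG.ess_below (K := K)
  obtain ⟨yL, G, h, G', hyL, hG, hG', hGz, hh, hreg, hpull, hval⟩ := exists_tr (L := L) hK hz
  have hcore := core (L := L) hsup hm hn e hK hx hy hsep hd hreg
  have hcK : CharZero K := charZero_of_injective_algebraMap (algebraMap ℂ K).injective
  obtain ⟨E, hE⟩ : ∃ E, E = ⨆ i : Fin k, F i.castSucc := ⟨_, rfl⟩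
  have hME := MF_erase (L := L) hE
  rw [← hE] at hf
  obtain ⟨M, hM⟩ : ∃ M, M = MF F L (Finset.univ.erase (Fin.last k)) := ⟨_, rfl⟩
  rw [← hM] at hf hcore hME
  have hEM : ∀ v ∈ E, v ∈ M := fun v hv => by
    rw [hME]
    exact IntermediateField.subset_adjoin _ _ hv
  have hle : ∀ i : Fin k, F i.castSucc ≤ E := fun i => by
    rw [hE]
    exact le_iSup (fun i : Fin k => F i.castSucc) i
  have hessE : Algebra.EssFiniteType ℂ E := ess_iSup (F := fun i : Fin k => F i.castSucc) hE
  have hind : AlgebraicIndependent ℂ fun p : (i : Fin k) × Fin (m i) => (x p.1 p.2 : K) := by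
    have h7 := hz.1.comp (fun p : (i : Fin k) × Fin (m i) => Fin.castAdd n (e.symm p))
      ((Fin.castAdd_injective _ _).comp e.symm.injective)
    have h8 : (Fin.append (fun l : Fin N => (x (e l).1 (e l).2 : K)) (fun j => (y j : K)) ∘
        fun p : (i : Fin k) × Fin (m i) => Fin.castAdd n (e.symm p)) =
        fun p => (x p.1 p.2 : K) := by
      funext p
      rw [Function.comp_apply, Fin.append_left, Equiv.apply_symm_apply]
    rwa [h8] at h7
  have hzE : IsTranscendenceBasis ℂ (zS x hle e) := basis_zS x hle e hx hind hE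
  have hsup' : E ⊔ F (Fin.last k) = ⊤ := by
    rw [eq_top_iff, ← hsup]
    refine iSup_le fun i => ?_
    induction i using Fin.lastCases with
    | last => exact le_sup_right
    | cast i => exact (hle i).trans le_sup_left
  have hTow : IsScalarTower ℂ M K := IsScalarTower.of_algebraMap_eq fun c => rfl
  have hMtr : Algebra.trdeg ℂ M = (N + n : ℕ) := Pool.Agent.Y184.NT.trdeg_below (K := K) hK
  obtain ⟨yM, GM, hMM, GM', hyM, hGM, hGM', hGMz, hhM, -, hpullM, -⟩ :=
    exists_tr (L := M) hK hz
  obtain ⟨c, hc⟩ := hval M GM GM' hGM'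
  have hc' : ∀ g, hMM * g = (c : K) * (h * g) := fun g => by
    rw [← hGMz, hc]
    rfl
  have hc0 : c ≠ 0 := by
    rintro rfl
    have h1 := hc' 1
    rw [mul_one] at h1
    apply hhM
    rw [h1]
    exact zero_mul _
  obtain ⟨ω, hω, D, hD0, hDi⟩ := hf
  obtain ⟨t, ht⟩ : ∃ t : Fin (s + 1) → M, ∀ j, t j = ω j GM := ⟨_, fun _ => rfl⟩
  have hcoord : ∀ j, trForm yM (t j) = ω j := fun j => by
    rw [ht]
    exact form_coord hyM hGM (hω j).1
  have hrat : ∀ j, ω j D = (Matrix.of fun i j => D i (yM j)).det ^ 1 * t j := fun j => by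
    rw [ht]
    exact Pool.Agent.Y172.pluri_coord hyM hGM (hω j).1 D
  have hdet : (Matrix.of fun i j => D i (yM j) : Matrix (Fin (N + n)) (Fin (N + n)) M).det ≠ 0 := by
    intro h0
    rw [hrat, h0, pow_one, zero_mul] at hD0
    exact hD0 rfl
  have ht0 : t 0 ≠ 0 := by
    intro h0
    rw [hrat, h0, mul_zero] at hD0
    exact hD0 rfl
  have hrat' : ∀ i : Fin s, ω i.succ D / ω 0 D = t i.succ / t 0 := fun i => by
    rw [hrat, hrat, pow_one, mul_div_mul_left _ _ hdet]
  -- the pull-backs
  have hk : ∀ j, (t j : K) / hMM ∈ Submodule.span E ((fun a : F (Fin.last k) => (a : K)) ''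
      HX y (fun _ => False)) := by
    intro j
    refine kun (x := zS x hle e) hsup' hzE hy hn hK hz fun Q hQ hQE => ?_
    refine hpullM (t j) Q hQ fun P a hP => ?_
    rw [hcoord]
    refine (hω j).2 P (Pool.Agent.Y71.NT.t_abh M K (N + n) (N + n) hMtr hK Q P a hP hQ)
      fun f hf => ?_
    have h1 := hQE ⟨(f : K), hf⟩
    have h2 : Q.ord (algebraMap M K f) = a * P.ord f := hP.2 f
    have h3 : Q.ord (algebraMap M K f) = 0 := h1
    rw [h3] at h2
    have h4 : (a : ℤ) ≠ 0 := by
      have := hP.1
      omega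
    exact (mul_eq_zero.1 h2.symm).resolve_left h4
  -- the traces
  obtain ⟨τ, hτ⟩ : ∃ τ : K → K, ∀ z, τ z = ((Algebra.trace M K (hMM * z) : M) : K) :=
    ⟨_, fun _ => rfl⟩
  obtain ⟨Sτ, hSτ⟩ : ∃ Sτ : Set K, Sτ = (fun a : F (Fin.last k) => τ (a : K)) ''
    HX y (fun _ => False) := ⟨_, rfl⟩
  have hspan : ∀ w ∈ Submodule.span E ((fun a : F (Fin.last k) => (a : K)) ''
      HX y (fun _ => False)), τ w ∈ Submodule.span E Sτ := by
    intro w hw
    induction hw using Submodule.span_induction with
    | mem w hw =>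
      obtain ⟨a, ha, rfl⟩ := hw
      apply Submodule.subset_span
      rw [hSτ]
      exact ⟨a, ha, rfl⟩
    | zero =>
      rw [hτ, mul_zero, map_zero]
      exact Submodule.zero_mem _
    | add u v _ _ hu hv =>
      have h1 : τ (u + v) = τ u + τ v := by
        rw [hτ, hτ, hτ, mul_add, map_add]
        rfl
      rw [h1]
      exact Submodule.add_mem _ hu hv
    | smul a w _ hw =>
      have h1 : τ (a • w) = a • τ w := by
        rw [hτ, hτ]
        have h2 : hMM * (a • w) = (⟨(a : K), hEM _ a.2⟩ : M) • (hMM * w) := by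
          rw [Algebra.smul_def, Algebra.smul_def]
          change hMM * ((a : K) * w) = (a : K) * (hMM * w)
          ring
        rw [h2, map_smul, smul_eq_mul, Algebra.smul_def]
        rfl
      rw [h1]
      exact Submodule.smul_mem _ _ hw
  have htτ : ∀ j, (t j : K) ∈ Submodule.span E Sτ := by
    intro j
    have h1 := hspan _ (hk j)
    have h2 : τ ((t j : K) / hMM) = (finrank M K : K) * (t j : K) := by
      rw [hτ, mul_div_cancel₀ _ hhM]
      have h3 : (t j : K) = algebraMap M K (t j) := rfl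
      rw [h3, Algebra.trace_algebraMap]
      change ((finrank M K • t j : M) : K) = _
      rw [nsmul_eq_mul]
      push_cast
      rfl
    rw [h2] at h1
    have h4 : (t j : K) = ((finrank M K : E)⁻¹ : E) • ((finrank M K : K) * (t j : K)) := by
      have h5 : (finrank M K : K) ≠ 0 := by
        rw [Nat.cast_ne_zero]
        exact finrank_pos.ne'
      rw [Algebra.smul_def]
      have h6 : algebraMap E K ((finrank M K : E)⁻¹) = (finrank M K : K)⁻¹ := by
        rw [map_inv₀, map_natCast]
      rw [h6, ← mul_assoc, inv_mul_cancel₀ h5, one_mul]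
    rw [h4]
    exact Submodule.smul_mem _ _ h1
  have hτh : ∀ a : K, τ a = (c : K) * ((Algebra.trace M K (h * a) : M) : K) := by
    intro a
    rw [hτ, hc']
    have h1 : (c : K) * (h * a) = c • (h * a) := rfl
    rw [h1, map_smul, smul_eq_mul]
    rfl
  -- some trace is not zero
  have hne : ∃ a ∈ HX y (fun _ => False), Algebra.trace M K (h * (a : K)) ≠ 0 := by
    by_contra hcon
    push Not at hcon
    have h1 : Submodule.span E Sτ = ⊥ := by
      rw [Submodule.span_eq_bot, hSτ]
      rintro _ ⟨a, ha, rfl⟩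
      change τ (a : K) = 0
      rw [hτh, hcon a ha]
      exact mul_zero _
    have h2 := htτ 0
    rw [h1, Submodule.mem_bot] at h2
    exact ht0 (Subtype.ext h2)
  obtain ⟨a0, ha0, ha0'⟩ := hne
  rcases hcore with h1 | ⟨ι, T, hT0, hTreg, hTx, hTr⟩
  · exact absurd (h1 a0 ha0) ha0'
  -- the algebraic closure of the field of the ratios
  obtain ⟨A, hA⟩ : ∃ A : IntermediateField ℂ K, A =
    (algebraicClosure (Rt T) K).restrictScalars ℂ := ⟨_, rfl⟩
  have hmem : ∀ z, z ∈ A ↔ IsAlgebraic (Rt T) z := fun z => by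
    rw [hA, mem_restrictScalars, mem_algebraicClosure_iff]
  have hEA : E ≤ A := by
    rw [hE]
    refine iSup_le fun i v hv => ?_
    exact (hmem _).2 (hTx i ⟨v, hv⟩)
  have hspA : ∀ w ∈ Submodule.span E Sτ, w / τ (a0 : K) ∈ A := by
    intro w hw
    induction hw using Submodule.span_induction with
    | mem w hw =>
      rw [hSτ] at hw
      obtain ⟨a, ha, rfl⟩ := hw
      change τ (a : K) / τ (a0 : K) ∈ A
      rw [hτh, hτh, mul_div_mul_left _ _ (fun h5 => hc0 (Subtype.ext h5)), hmem]
      exact hTr a ha a0 ha0 ha0'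
    | zero =>
      rw [zero_div]
      exact A.zero_mem
    | add u v _ _ hu hv =>
      rw [add_div]
      exact A.add_mem hu hv
    | smul a w _ hw =>
      rw [Algebra.smul_def, mul_div_assoc]
      exact A.mul_mem (hEA a.2) hw
  have hτ0 : τ (a0 : K) ≠ 0 := by
    rw [hτh]
    exact mul_ne_zero (fun h5 => hc0 (Subtype.ext h5)) (fun h5 => ha0' (Subtype.ext h5))
  have ht0' : (t 0 : K) ≠ 0 := fun h5 => ht0 (Subtype.ext h5)
  have hratA : ∀ i : Fin s, ((ω i.succ D / ω 0 D : M) : K) ∈ A := by
    intro i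
    rw [hrat']
    have h1 := A.div_mem (hspA _ (htτ i.succ)) (hspA _ (htτ 0))
    rw [div_div_div_cancel_right₀ hτ0] at h1
    exact h1
  have hw := indep_append hzE.1 hDi
  refine canGe_of_alg hL hG T hT0 hTreg (trdeg_adj hw) fun j => ?_
  refine (hmem _).1 ?_
  refine Fin.addCases (fun l => ?_) (fun i => ?_) j
  · rw [Fin.append_left]
    exact hEA (zS x hle e l).2
  · rw [Fin.append_right]
    exact hratA i

end

end Pool.Agent.Run7.h562.MM
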