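import Pool.Agent.Run7.h562.MM.Main

/-!
The dimension of the canonical image of varieties dominated by products: comparison with the last
factor.
-/

set_option autoImplicit false
set_option linter.overlappingInstances false
set_option linter.unusedSectionVars false
set_option linter.unusedVariables false
set_option maxHeartbeats 4000000
set_option synthInstance.maxHeartbeats 400000

open FF IntermediateField Module

namespace Pool.Agent.Run7.h562.MM

open Pool.Agent Pool.Agent.W603.LV Pool.Agent.W619.PQ Pool.Agent.N145.PC Pool.Agent.N145.PL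
  Pool.Agent.N145.SX
open Pool.Agent.W602.GT (Divisorial RegAt IsPluri DerReg DerLog LogAt KodGe LogSec Psef)
open Pool.Agent.Y184.NT (trForm trForm_pluri)
open Pool.Agent.R882.LT (SecAt LogGenusZero)

open scoped Classical

section

variable {K : Type} [Field K] [Algebra ℂ K] {L : Type} [Field L] [Algebra ℂ L] [Algebra L K]
  [IsScalarTower ℂ L K]

theorem trace_top {M : IntermediateField L K} (h : M = ⊤) (z : K) :
    ((Algebra.trace M K z : M) : K) = z := by
  subst h
  have h1 : z = algebraMap (⊤ : IntermediateField L K) K ⟨z, IntermediateField.mem_top⟩ := rfl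
  conv_lhs => rw [h1]
  rw [Algebra.trace_algebraMap, IntermediateField.finrank_top, one_smul]

end

section

variable {R : Type} [Field R] [Algebra ℂ R] {n : ℕ} {y : Fin n → R}

/-- canonical forms in coordinates -/
theorem mem_HX {ω : (Fin n → Derivation ℂ R R) → R} {E : Fin n → Derivation ℂ R R}
    (hy : IsTranscendenceBasis ℂ y) (hE : ∀ i j, E i (y j) = if i = j then 1 else 0)
    (hω : IsPluri 1 ω) (hreg : ∀ P : Place ℂ R, Divisorial n P → RegAt P ω) :
    ω E ∈ HX y (fun _ => False) := by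
  intro P hP
  rw [form_coord hy hE hω]
  exact ⟨fun D hD => hreg P hP D fun i => Pool.Agent.TH466.QG.derReg_of_log (hD i),
    fun _ => hreg P hP⟩

end

section

variable {K : Type} [Field K] [Algebra ℂ K] {k : ℕ} {F : Fin (k + 1) → IntermediateField ℂ K}
  {m : Fin k → ℕ} {n : ℕ}

variable {L : Type} [Field L] [Algebra ℂ L]
  [Algebra L K] [IsScalarTower ℂ L K] [FiniteDimensional L K]

/-- **Canonical forms of the last factor, if the map to the product with the base is birational.** -/
theorem from_Y [Algebra.EssFiniteType ℂ K]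
    [∀ i, Algebra.EssFiniteType ℂ (F i)] (hsup : ⨆ i, F i = ⊤)
    (hm : ∀ i : Fin k, Algebra.trdeg ℂ (F i.castSucc) = m i)
    (hn : Algebra.trdeg ℂ (F (Fin.last k)) = n) {N : ℕ} (e : Fin N ≃ (i : Fin k) × Fin (m i))
    (hK : Algebra.trdeg ℂ K = (N + n : ℕ)) {x : ∀ i : Fin k, Fin (m i) → F i.castSucc}
    (hx : ∀ i, IsTranscendenceBasis ℂ (x i)) {y : Fin n → F (Fin.last k)}
    (hy : IsTranscendenceBasis ℂ y)
    {g : Fin k → ℕ} (hsep : ∀ i, SepX (x i) (fun _ => False) (g i))
    (hd : ∀ i : Fin k, 2 * finrank (MF F L (Js (k + 1) i)) (IntermediateField.adjoin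
      (MF F L (Js (k + 1) i)) (F i.castSucc : Set K)) < g i) {s : ℕ}
    (htop : MF F L (Finset.univ.erase (Fin.last k)) = ⊤)
    (hf : CanGe (F (Fin.last k)) n s) :
    CanGe L (N + n) (N + s) := by
  have hz := basis_all hsup hK hx hy e
  have hL : Algebra.trdeg ℂ L = (N + n : ℕ) := Pool.Agent.Y184.NT.trdeg_below (K := K) hK
  have hessL : Algebra.EssFiniteType ℂ L := Pool.Agent.TH466.QG.ess_below (K := K)
  obtain ⟨yL, G, h, G', hyL, hG, hG', hGz, hh, hreg, hpull, hval⟩ := exists_tr (L := L) hK hz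
  have hcore := core (L := L) hsup hm hn e hK hx hy hsep hd hreg
  obtain ⟨EY, hEY⟩ : ∃ EY : Fin n → Derivation ℂ (F (Fin.last k)) (F (Fin.last k)),
      ∀ i j, EY i (y j) = if i = j then 1 else 0 := by
    choose EY hEY using fun i : Fin n => Pool.Agent.W602.GT.exists_der (L := ℂ) _ hy
      fun j => if i = j then (1 : F (Fin.last k)) else 0
    exact ⟨EY, hEY⟩
  obtain ⟨ω, hω, D, hD0, hDi⟩ := hf
  have ha : ∀ j, ω j EY ∈ HX y (fun _ => False) := fun j => mem_HX hy hEY (hω j).1 (hω j).2
  have hrat : ∀ j, ω j D = (Matrix.of fun i j => D i (y j)).det ^ 1 * ω j EY := fun j =>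
    Pool.Agent.Y172.pluri_coord hy hEY (hω j).1 D
  have hdet : (Matrix.of fun i j => D i (y j) :
      Matrix (Fin n) (Fin n) (F (Fin.last k))).det ≠ 0 := by
    intro h0
    rw [hrat, h0, pow_one, zero_mul] at hD0
    exact hD0 rfl
  have ht0 : ω 0 EY ≠ 0 := by
    intro h0
    rw [hrat, h0, mul_zero] at hD0
    exact hD0 rfl
  have hrat' : ∀ i : Fin s, ω i.succ D / ω 0 D = ω i.succ EY / ω 0 EY := fun i => by
    rw [hrat, hrat, pow_one, mul_div_mul_left _ _ hdet]
  have ht0' : ((ω 0 EY : F (Fin.last k)) : K) ≠ 0 := fun h5 => ht0 (Subtype.ext h5)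
  have hne : Algebra.trace (MF F L (Finset.univ.erase (Fin.last k))) K
      (h * ((ω 0 EY : F (Fin.last k)) : K)) ≠ 0 := by
    intro h0
    have h1 := trace_top htop (h * ((ω 0 EY : F (Fin.last k)) : K))
    rw [h0] at h1
    exact mul_ne_zero hh ht0' h1.symm
  rcases hcore with h1 | ⟨ι, T, hT0, hTreg, hTx, hTr⟩
  · exact absurd (h1 _ (ha 0)) hne
  have hratA : ∀ i : Fin s, IsAlgebraic (Rt T) (((ω i.succ D / ω 0 D : F (Fin.last k))) : K) := by
    intro i
    have h1 := hTr _ (ha i.succ) _ (ha 0) hne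
    rw [trace_top htop, trace_top htop, mul_div_mul_left _ _ hh] at h1
    rw [hrat']
    exact h1
  -- the coordinates are independent over the last factor
  have hind2 : AlgebraicIndependent (F (Fin.last k)) (fun l : Fin N => (x (e l).1 (e l).2 : K)) :=
    (indep_over hn hK hz).1
  have hw := indep_append (E := F (Fin.last k)) hDi hind2
  rw [add_comm N s]
  refine canGe_of_alg hL hG T hT0 hTreg (trdeg_adj hw) fun j => ?_
  refine Fin.addCases (fun l => ?_) (fun i => ?_) j
  · rw [Fin.append_left]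
    exact hratA l
  · rw [Fin.append_right]
    exact hTx _ _

/-- **Upper bound for the dimension of the canonical image.** -/
theorem to_Y [Algebra.EssFiniteType ℂ K]
    [∀ i, Algebra.EssFiniteType ℂ (F i)] (hsup : ⨆ i, F i = ⊤)
    (hm : ∀ i : Fin k, Algebra.trdeg ℂ (F i.castSucc) = m i)
    (hn : Algebra.trdeg ℂ (F (Fin.last k)) = n) {N : ℕ} (e : Fin N ≃ (i : Fin k) × Fin (m i))
    (hK : Algebra.trdeg ℂ K = (N + n : ℕ)) {x : ∀ i : Fin k, Fin (m i) → F i.castSucc}
    (hx : ∀ i, IsTranscendenceBasis ℂ (x i)) {y : Fin n → F (Fin.last k)}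
    (hy : IsTranscendenceBasis ℂ y) {s : ℕ} (hf : CanGe L (N + n) (N + s)) :
    CanGe (F (Fin.last k)) n s := by
  have hz := basis_all hsup hK hx hy e
  have hL : Algebra.trdeg ℂ L = (N + n : ℕ) := Pool.Agent.Y184.NT.trdeg_below (K := K) hK
  have hessL : Algebra.EssFiniteType ℂ L := Pool.Agent.TH466.QG.ess_below (K := K)
  obtain ⟨yL, G, h, G', hyL, hG, hG', hGz, hh, hreg, hpull, hval⟩ := exists_tr (L := L) hK hz
  obtain ⟨E, hE⟩ : ∃ E, E = ⨆ i : Fin k, F i.castSucc := ⟨_, rfl⟩
  have hle : ∀ i : Fin k, F i.castSucc ≤ E := fun i => by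
    rw [hE]
    exact le_iSup (fun i : Fin k => F i.castSucc) i
  have hessE : Algebra.EssFiniteType ℂ E := ess_iSup (F := fun i : Fin k => F i.castSucc) hE
  have hind : AlgebraicIndependent ℂ fun p : (i : Fin k) × Fin (m i) => (x p.1 p.2 : K) := by
    have h7 := hz.1.comp (fun p : (i : Fin k) × Fin (m i) => Fin.castAdd n (e.symm p))
      ((Fin.castAdd_injective _ _).comp e.symm.injective)
    have h8 : (Fin.append (fun l : Fin N => (x (e l).1 (e l).2 : K)) (fun j => (y j : K)) ∘
        fun p : (i : Fin k) × Fin (m i) => Fin.castAdd n (e.symm p)) =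
        fun p => (x p.1 p.2 : K) := by
      funext p
      rw [Function.comp_apply, Fin.append_left, Equiv.apply_symm_apply]
    rwa [h8] at h7
  have hzE : IsTranscendenceBasis ℂ (zS x hle e) := basis_zS x hle e hx hind hE
  have hsup' : E ⊔ F (Fin.last k) = ⊤ := by
    rw [eq_top_iff, ← hsup]
    refine iSup_le fun i => ?_
    induction i using Fin.lastCases with
    | last => exact le_sup_right
    | cast i => exact (hle i).trans le_sup_left
  obtain ⟨ω, hω, D, hD0, hDi⟩ := hf
  obtain ⟨t, ht⟩ : ∃ t : Fin (N + s + 1) → L, ∀ j, t j = ω j G := ⟨_, fun _ => rfl⟩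
  have hcoord : ∀ j, trForm yL (t j) = ω j := fun j => by
    rw [ht]
    exact form_coord hyL hG (hω j).1
  have hrat : ∀ j, ω j D = (Matrix.of fun i j => D i (yL j)).det ^ 1 * t j := fun j => by
    rw [ht]
    exact Pool.Agent.Y172.pluri_coord hyL hG (hω j).1 D
  have hdet : (Matrix.of fun i j => D i (yL j) : Matrix (Fin (N + n)) (Fin (N + n)) L).det ≠ 0 := by
    intro h0
    rw [hrat, h0, pow_one, zero_mul] at hD0
    exact hD0 rfl
  have ht0 : t 0 ≠ 0 := by
    intro h0
    rw [hrat, h0, mul_zero] at hD0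
    exact hD0 rfl
  have hrat' : ∀ i : Fin (N + s), ω i.succ D / ω 0 D = t i.succ / t 0 := fun i => by
    rw [hrat, hrat, pow_one, mul_div_mul_left _ _ hdet]
  have hk : ∀ j, algebraMap L K (t j) / h ∈ Submodule.span E
      ((fun a : F (Fin.last k) => (a : K)) '' HX y (fun _ => False)) := by
    intro j
    refine kun (x := zS x hle e) hsup' hzE hy hn hK hz fun Q hQ _ => ?_
    refine hpull (t j) Q hQ fun P a hP => ?_
    rw [hcoord]
    exact (hω j).2 P (Pool.Agent.Y71.NT.t_abh L K (N + n) (N + n) hL hK Q P a hP hQ)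
  -- a canonical form of the last factor which is not zero
  have ht0' : algebraMap L K (t 0) / h ≠ 0 := div_ne_zero (by simpa using ht0) hh
  have hne : ∃ a ∈ HX y (fun _ => False), a ≠ 0 := by
    by_contra hcon
    push Not at hcon
    have h1 : Submodule.span E ((fun a : F (Fin.last k) => (a : K)) ''
        HX y (fun _ => False)) = ⊥ := by
      rw [Submodule.span_eq_bot]
      rintro _ ⟨a, ha, rfl⟩
      change (a : K) = 0
      rw [hcon a ha]
      rfl
    have h2 := hk 0
    rw [h1, Submodule.mem_bot] at h2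
    exact ht0' h2
  obtain ⟨a0, ha0, ha0'⟩ := hne
  let ι : Type := {a : F (Fin.last k) // a ∈ HX y (fun _ => False)}
  obtain ⟨T, hT⟩ : ∃ T : ι → F (Fin.last k), ∀ a, T a = a.1 := ⟨fun a => a.1, fun _ => rfl⟩
  -- a transcendence basis of the field of the ratios
  obtain ⟨p, hp⟩ : ∃ p : ℕ, Algebra.trdeg ℂ (Rt T) = p := by
    have h1 : Algebra.trdeg ℂ (Rt T) ≤ Algebra.trdeg ℂ (F (Fin.last k)) :=
      trdeg_le_of_injective (Rt T).val (Rt T).val.injective
    rw [hn] at h1
    obtain ⟨p, hp⟩ := Cardinal.lt_aleph0.1 (h1.trans_lt Cardinal.natCast_lt_aleph0)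
    exact ⟨p, hp⟩
  obtain ⟨b, hb⟩ := Pool.Agent.W636.PG.exists_basis ℂ (Rt T) p hp
  -- the functions are algebraic over the coordinates and `b`
  obtain ⟨w, hw⟩ : ∃ w : Fin (N + p) → K, w = Fin.append (fun l : Fin N =>
    (x (e l).1 (e l).2 : K)) (fun j => (((b j : Rt T) : F (Fin.last k)) : K)) := ⟨_, rfl⟩
  obtain ⟨S, hS⟩ : ∃ S, S = IntermediateField.adjoin ℂ (Set.range w) := ⟨_, rfl⟩
  have hwS : ∀ l, w l ∈ S := fun l => by
    rw [hS]
    exact IntermediateField.subset_adjoin _ _ ⟨l, rfl⟩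
  obtain ⟨A, hA⟩ : ∃ A : IntermediateField ℂ K, A = (algebraicClosure S K).restrictScalars ℂ :=
    ⟨_, rfl⟩
  have hmem : ∀ z, z ∈ A ↔ IsAlgebraic S z := fun z => by
    rw [hA, mem_restrictScalars, mem_algebraicClosure_iff]
  have hEA : E ≤ A := by
    rw [hE]
    refine iSup_le fun i v hv => ?_
    refine (hmem _).2 (alg_of_basis (hx i) (fun j => ?_) hv)
    have h1 := hwS (Fin.castAdd p (e.symm ⟨i, j⟩))
    rw [hw, Fin.append_left, Equiv.apply_symm_apply] at h1
    exact h1
  have hRA : ∀ v : Rt T, ((v : F (Fin.last k)) : K) ∈ A := by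
    obtain ⟨R', hR'⟩ : ∃ R' : IntermediateField ℂ K, R' = (Rt T).map (F (Fin.last k)).val :=
      ⟨_, rfl⟩
    have hbR : ∀ v : Rt T, ((v : F (Fin.last k)) : K) ∈ R' := fun v => by
      rw [hR']
      exact ⟨(v : F (Fin.last k)), v.2, rfl⟩
    obtain ⟨b', hb'⟩ : ∃ b' : Fin p → R', ∀ j, (b' j : K) = ((b j : Rt T) : F (Fin.last k)) :=
      ⟨fun j => ⟨_, hbR (b j)⟩, fun _ => rfl⟩
    have hb'' : IsTranscendenceBasis ℂ b' := by
      have h1 : AlgebraicIndependent ℂ b' := by
        refine AlgebraicIndependent.of_comp R'.val ?_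
        have h2 := (hb.1.map' (f := (Rt T).val) (Rt T).val.injective).map'
          (f := (F (Fin.last k)).val) (F (Fin.last k)).val.injective
        have h3 : (R'.val ∘ b' : Fin p → K) = (F (Fin.last k)).val ∘ (Rt T).val ∘ b :=
          funext hb'
        rw [h3]
        exact h2
      refine h1.isTranscendenceBasis_of_lift_trdeg_le_of_finite ?_
      have h4 : Algebra.trdeg ℂ R' = p := by
        rw [hR', ← hp]
        exact ((Rt T).equivMap (F (Fin.last k)).val).symm.trdeg_eq
      rw [h4]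
      simp
    intro v
    refine (hmem _).2 (alg_of_basis hb'' (fun j => ?_) (hbR v))
    have h1 := hwS (Fin.natAdd N j)
    rw [hw, Fin.append_right] at h1
    rw [hb']
    exact h1
  have ha0K : ((a0 : F (Fin.last k)) : K) ≠ 0 := fun h5 => ha0' (Subtype.ext h5)
  have hspA : ∀ w ∈ Submodule.span E ((fun a : F (Fin.last k) => (a : K)) ''
      HX y (fun _ => False)), w / (a0 : K) ∈ A := by
    intro w hw
    induction hw using Submodule.span_induction with
    | mem w hw =>
      obtain ⟨a, ha, rfl⟩ := hw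
      have h1 := ratio_mem T ⟨a, ha⟩ ⟨a0, ha0⟩
      rw [hT, hT] at h1
      exact hRA ⟨_, h1⟩
    | zero =>
      rw [zero_div]
      exact A.zero_mem
    | add u v _ _ hu hv =>
      rw [add_div]
      exact A.add_mem hu hv
    | smul a w _ hw =>
      rw [Algebra.smul_def, mul_div_assoc]
      exact A.mul_mem (hEA a.2) hw
  have hri : AlgebraicIndependent ℂ (fun i : Fin (N + s) =>
      algebraMap L K (ω i.succ D / ω 0 D)) := hDi.map' (f := IsScalarTower.toAlgHom ℂ L K)
    (IsScalarTower.toAlgHom ℂ L K).injective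
  have hle2 : N + s ≤ N + p := by
    refine card_le_of_alg (w := w) hri fun i => ?_
    rw [← hS]
    refine (hmem _).1 ?_
    have h1 := A.div_mem (hspA _ (hk i.succ)) (hspA _ (hk 0))
    rw [div_div_div_cancel_right₀ ha0K, div_div_div_cancel_right₀ hh] at h1
    rw [hrat', map_div₀]
    exact h1
  have hsp : s ≤ p := by omega
  obtain ⟨EY, hEY⟩ : ∃ EY : Fin n → Derivation ℂ (F (Fin.last k)) (F (Fin.last k)),
      ∀ i j, EY i (y j) = if i = j then 1 else 0 := by
    choose EY hEY using fun i : Fin n => Pool.Agent.W602.GT.exists_der (L := ℂ) _ hy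
      fun j => if i = j then (1 : F (Fin.last k)) else 0
    exact ⟨EY, hEY⟩
  obtain ⟨x', hx'⟩ : ∃ x' : Fin s → F (Fin.last k), ∀ i, x' i = (b (Fin.castLE hsp i) : Rt T) :=
    ⟨_, fun _ => rfl⟩
  have hxi : AlgebraicIndependent ℂ x' := by
    have h1 := (hb.1.comp (Fin.castLE hsp) (Fin.castLE_injective hsp)).map' (f := (Rt T).val)
      (Rt T).val.injective
    have h2 : ((Rt T).val ∘ b ∘ Fin.castLE hsp : Fin s → F (Fin.last k)) = x' :=
      funext fun i => (hx' i).symm
    rwa [h2] at h1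
  refine canGe_of_alg (K := F (Fin.last k)) hn hEY T ⟨⟨a0, ha0⟩, by rw [hT]; exact ha0'⟩
    (fun f P hP => by
      rw [hT]
      exact (f.2 P hP).2 not_false) (trdeg_adj hxi) fun j => ?_
  rw [hx']
  exact isAlgebraic_algebraMap (b (Fin.castLE hsp j))

/-- **The geometric genus.** -/
theorem pg_iff_fib [Algebra.EssFiniteType ℂ K] {N : ℕ}
    (hK : Algebra.trdeg ℂ K = (N : ℕ)) {M : IntermediateField L K} {E : IntermediateField ℂ K}
    (h : CanGe L N 0) : FibGe M E N 0 := by
  obtain ⟨ω, hω, D, hD0, -⟩ := h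
  exact fib_of hK hω hD0 ((algebraicIndependent_empty_type_iff (x := fun i : Fin 0 =>
    algebraMap L K (ω i.succ D / ω 0 D))).2 (algebraMap E K).injective)

/-- **From the canonical forms of the variety to the ones of the fibres.** -/
theorem to_fibre [Algebra.EssFiniteType ℂ K] {N n s : ℕ}
    (hK : Algebra.trdeg ℂ K = (N + n : ℕ)) {M : IntermediateField L K} {E : IntermediateField ℂ K}
    (hE : Algebra.trdeg ℂ E = N) (h : CanGe L (N + n) (N + s)) : FibGe M E (N + n) s := by
  obtain ⟨ω, hω, D, hD0, hDi⟩ := h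
  have hri : AlgebraicIndependent ℂ (fun i : Fin (N + s) =>
      algebraMap L K (ω i.succ D / ω 0 D)) := hDi.map' (f := IsScalarTower.toAlgHom ℂ L K)
    (IsScalarTower.toAlgHom ℂ L K).injective
  obtain ⟨ι, hι⟩ := choose_indep hE hri
  exact fib_of (s := s) hK (ω := Fin.cons (ω 0) fun i => ω (ι i).succ) (fun j => by
    refine Fin.cases ?_ (fun i => ?_) j
    · rw [Fin.cons_zero]
      exact hω 0
    · rw [Fin.cons_succ]
      exact hω _) (D := D) (by rw [Fin.cons_zero]; exact hD0) (by
    simp only [Fin.cons_zero, Fin.cons_succ]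
    exact hι)

end

end Pool.Agent.Run7.h562.MM
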